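import Mathlib

set_option autoImplicit false
set_option linter.unusedSectionVars false
set_option maxHeartbeats 1000000

noncomputable section

open Finset Classical

namespace Pool.Agent.H60.Greedy

variable {V : Type*} [DecidableEq V]

/-- Expectation of `f W` for the random subset `W` of `G` which contains each `y` independently
with probability `p y`. -/
def cs (G : Finset V) (p : V → ℝ) (f : Finset V → ℝ) : ℝ :=
  ∑ W ∈ G.powerset, ((∏ y ∈ W, p y) * ∏ y ∈ G \ W, (1 - p y)) * f W

theorem cs_ind (G A : Finset V) (p : V → ℝ) :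
    cs G p (fun W => if A ⊆ W then (1:ℝ) else 0) = if A ⊆ G then ∏ y ∈ A, p y else 0 := by
  unfold cs
  split_ifs with hA
  · have h := Finset.prod_add p (fun y => if y ∈ A then (0:ℝ) else 1 - p y) G
    have h1 : ∏ y ∈ G, (p y + if y ∈ A then (0:ℝ) else 1 - p y) = ∏ y ∈ A, p y := by
      rw [← Finset.prod_subset hA (f := fun y => (p y + if y ∈ A then (0:ℝ) else 1 - p y))]
      · apply Finset.prod_congr rfl
        intro y hy
        simp [hy]
      · intro y _ hy
        simp [hy]
    rw [← h1, h]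
    apply Finset.sum_congr rfl
    intro W hW
    rw [Finset.mem_powerset] at hW
    beta_reduce
    by_cases hAW : A ⊆ W
    · rw [if_pos hAW, mul_one]
      congr 1
      apply Finset.prod_congr rfl
      intro y hy
      rw [Finset.mem_sdiff] at hy
      rw [if_neg (fun h => hy.2 (hAW h))]
    · rw [if_neg hAW, mul_zero]
      obtain ⟨y, hyA, hyW⟩ := Finset.not_subset.mp hAW
      symm
      apply mul_eq_zero_of_right
      apply Finset.prod_eq_zero (i := y)
      · exact Finset.mem_sdiff.mpr ⟨hA hyA, hyW⟩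
      · simp [hyA]
  · apply Finset.sum_eq_zero
    intro W hW
    rw [Finset.mem_powerset] at hW
    beta_reduce
    rw [if_neg (fun h => hA (Finset.Subset.trans h hW)), mul_zero]

theorem cs_const (G : Finset V) (p : V → ℝ) (c : ℝ) : cs G p (fun _ => c) = c := by
  have h := cs_ind G ∅ p
  simp only [Finset.empty_subset, if_true, Finset.prod_empty] at h
  unfold cs at h ⊢
  rw [← Finset.sum_mul]
  rw [← Finset.sum_mul] at h
  rw [mul_one] at h
  rw [h, one_mul]

theorem cs_mono (G : Finset V) (p : V → ℝ) (f f' : Finset V → ℝ)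
    (h0 : ∀ y ∈ G, 0 ≤ p y) (h1 : ∀ y ∈ G, p y ≤ 1)
    (h : ∀ W, W ⊆ G → (∀ y ∈ W, p y ≠ 0) → f W ≤ f' W) : cs G p f ≤ cs G p f' := by
  unfold cs
  apply Finset.sum_le_sum
  intro W hW
  rw [Finset.mem_powerset] at hW
  by_cases hz : ∀ y ∈ W, p y ≠ 0
  · apply mul_le_mul_of_nonneg_left (h W hW hz)
    apply mul_nonneg
    · exact Finset.prod_nonneg (fun y hy => h0 y (hW hy))
    · apply Finset.prod_nonneg
      intro y hy
      have := h1 y (Finset.mem_sdiff.mp hy).1
      linarith
  · push Not at hz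
    obtain ⟨y, hy, hy0⟩ := hz
    rw [Finset.prod_eq_zero hy hy0]
    simp

theorem cs_add (G : Finset V) (p : V → ℝ) (f f' : Finset V → ℝ) :
    cs G p (fun W => f W + f' W) = cs G p f + cs G p f' := by
  unfold cs
  rw [← Finset.sum_add_distrib]
  apply Finset.sum_congr rfl
  intro W _
  ring

theorem cs_smul (G : Finset V) (p : V → ℝ) (c : ℝ) (f : Finset V → ℝ) :
    cs G p (fun W => c * f W) = c * cs G p f := by
  unfold cs
  rw [Finset.mul_sum]
  apply Finset.sum_congr rfl
  intro W _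
  ring

variable (L : Finset (Finset V))

/-- `a` and `y` lie on a common line which already contains a chosen point. -/
def touch (R : Finset V) (y a : V) : Prop := ∃ l ∈ L, y ∈ l ∧ a ∈ l ∧ (l ∩ R).Nonempty

/-- The points of `U` whose choice would kill `y`. -/
def HH (R U : Finset V) (y : V) : Finset V := insert y (U.filter (fun a => touch L R y a))

/-- `y` is not overloaded. -/
def Ok (g κ ξ : ℝ) (R U : Finset V) (y : V) : Prop :=
  g * ((HH L R U y).card : ℝ) ≤ κ ∧ ∀ l ∈ L, y ∈ l → g * ((U ∩ l).card : ℝ) ≤ ξ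

/-- The points of `U` which are not overloaded. -/
def good (g κ ξ : ℝ) (R U : Finset V) : Finset V := U.filter (fun y => Ok L g κ ξ R U y)

/-- coin -/
def qq (g κ : ℝ) (R G : Finset V) (y : V) : ℝ := (1 - κ) / (1 - g * ((HH L R G y).card : ℝ))

/-- survival probability of `y` if `a` is picked -/
def sp (g κ : ℝ) (R G : Finset V) (a y : V) : ℝ :=
  if a ∈ HH L R G y then 0 else qq L g κ R G y

theorem good_subset (g κ ξ : ℝ) (R U : Finset V) : good L g κ ξ R U ⊆ U :=
  Finset.filter_subset _ _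

theorem mem_HH_self (R U : Finset V) (y : V) : y ∈ HH L R U y := Finset.mem_insert_self _ _

theorem HH_mono {R U U' : Finset V} (h : U ⊆ U') (y : V) : HH L R U y ⊆ HH L R U' y := by
  unfold HH
  apply Finset.insert_subset_insert
  exact Finset.filter_subset_filter _ h

theorem HH_good_le {g κ ξ : ℝ} (hg : 0 ≤ g) {R U : Finset V} {y : V} (hy : y ∈ good L g κ ξ R U) :
    g * ((HH L R (good L g κ ξ R U) y).card : ℝ) ≤ κ := by
  have h1 : ((HH L R (good L g κ ξ R U) y).card : ℝ) ≤ ((HH L R U y).card : ℝ) := by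
    exact_mod_cast Finset.card_le_card (HH_mono L (good_subset L g κ ξ R U) y)
  have h2 := (Finset.mem_filter.mp hy).2.1
  nlinarith

variable [Fintype V]

/-- One step of the process, acting on functions of the state `(R, U)`. -/
def step (g κ ξ : ℝ) (f : Finset V → Finset V → ℝ) (R U : Finset V) : ℝ :=
  (∑ a : V, g * cs (good L g κ ξ R U) (sp L g κ R (good L g κ ξ R U) a)
    (fun W => f (if a ∈ good L g κ ξ R U then insert a R else R) W))
  + (1 - (Fintype.card V : ℝ) * g) *
    cs (good L g κ ξ R U) (qq L g κ R (good L g κ ξ R U)) (fun W => f R W)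

theorem step_add (g κ ξ : ℝ) (f f' : Finset V → Finset V → ℝ) :
    step L g κ ξ (f + f') = step L g κ ξ f + step L g κ ξ f' := by
  funext R U
  simp only [step, Pi.add_apply, cs_add, mul_add, Finset.sum_add_distrib]
  ring

theorem step_smul (g κ ξ : ℝ) (c : ℝ) (f : Finset V → Finset V → ℝ) :
    step L g κ ξ (c • f) = c • step L g κ ξ f := by
  funext R U
  simp only [step, Pi.smul_apply, smul_eq_mul, cs_smul]
  rw [mul_add, Finset.mul_sum]
  congr 1
  · apply Finset.sum_congr rfl
    intro a _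
    ring
  · ring

/-- The step as a linear map. -/
def stepL (g κ ξ : ℝ) : (Finset V → Finset V → ℝ) →ₗ[ℝ] (Finset V → Finset V → ℝ) where
  toFun := step L g κ ξ
  map_add' := step_add L g κ ξ
  map_smul' := step_smul L g κ ξ

/-- Expectation after `t` steps. -/
def EE (γ : ℕ → ℝ) (κ ξ : ℝ) : ℕ → ((Finset V → Finset V → ℝ) →ₗ[ℝ] ℝ)
  | 0 => { toFun := fun f => f ∅ Finset.univ, map_add' := fun _ _ => rfl,
           map_smul' := fun _ _ => rfl }
  | (t+1) => (EE γ κ ξ t).comp (stepL L (γ t) κ ξ)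

theorem EE_zero (γ : ℕ → ℝ) (κ ξ : ℝ) (f : Finset V → Finset V → ℝ) :
    EE L γ κ ξ 0 f = f ∅ Finset.univ := rfl

theorem EE_succ (γ : ℕ → ℝ) (κ ξ : ℝ) (t : ℕ) (f : Finset V → Finset V → ℝ) :
    EE L γ κ ξ (t+1) f = EE L γ κ ξ t (step L (γ t) κ ξ f) := rfl

/-- Valid states. -/
def Valid (R U : Finset V) : Prop :=
  (∀ l ∈ L, (l ∩ R).card ≤ 2) ∧ ∀ y ∈ U, y ∉ R ∧ ∀ l ∈ L, y ∈ l → (l ∩ R).card ≤ 1

theorem valid_init : Valid L ∅ (Finset.univ : Finset V) := by
  constructor
  · intro l _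
    simp
  · intro y _
    simp

theorem Valid.sub {R U W : Finset V} (h : Valid L R U) (hW : W ⊆ U) : Valid L R W :=
  ⟨h.1, fun y hy => h.2 y (hW hy)⟩

theorem Valid.pick {R U G W : Finset V} (h : Valid L R U) (hG : G ⊆ U) (hW : W ⊆ G) {b : V}
    (hb : b ∈ G) (hWb : ∀ y ∈ W, b ∉ HH L R G y) : Valid L (insert b R) W := by
  constructor
  · intro l hl
    by_cases hbl : b ∈ l
    · have h1 := (h.2 b (hG hb)).2 l hl hbl
      rw [Finset.inter_insert_of_mem hbl]
      exact (Finset.card_insert_le _ _).trans (by omega)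
    · rw [Finset.inter_insert_of_notMem hbl]
      exact h.1 l hl
  · intro y hy
    have hyb := hWb y hy
    have hne : y ≠ b := by
      rintro rfl
      exact hyb (Finset.mem_insert_self _ _)
    constructor
    · rw [Finset.mem_insert]
      rintro (h1 | h1)
      · exact hne h1
      · exact (h.2 y (hG (hW hy))).1 h1
    · intro l hl hyl
      by_cases hbl : b ∈ l
      · rw [Finset.inter_insert_of_mem hbl]
        have hemp : l ∩ R = ∅ := by
          by_contra hne'
          apply hyb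
          apply Finset.mem_insert_of_mem
          rw [Finset.mem_filter]
          exact ⟨hb, l, hl, hyl, hbl, Finset.nonempty_iff_ne_empty.mpr hne'⟩
        rw [hemp]
        simp
      · rw [Finset.inter_insert_of_notMem hbl]
        exact (h.2 y (hG (hW hy))).2 l hl hyl

/-- parameter conditions -/
def Par (V : Type*) [Fintype V] (g κ : ℝ) : Prop :=
  0 ≤ g ∧ (Fintype.card V : ℝ) * g ≤ 1 ∧ 0 ≤ κ ∧ κ < 1

theorem qq_pos {g κ ξ : ℝ} (hP : Par V g κ) {R U : Finset V} {y : V}
    (hy : y ∈ good L g κ ξ R U) : 0 < qq L g κ R (good L g κ ξ R U) y := by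
  obtain ⟨hg, _, _, hk1⟩ := hP
  have h := HH_good_le L hg hy
  unfold qq
  apply div_pos <;> linarith

theorem qq_le_one {g κ ξ : ℝ} (hP : Par V g κ) {R U : Finset V} {y : V}
    (hy : y ∈ good L g κ ξ R U) : qq L g κ R (good L g κ ξ R U) y ≤ 1 := by
  obtain ⟨hg, _, _, hk1⟩ := hP
  have h := HH_good_le L hg hy
  unfold qq
  rw [div_le_one (by linarith)]
  linarith

theorem sp_nonneg {g κ ξ : ℝ} (hP : Par V g κ) {R U : Finset V} {y : V}
    (hy : y ∈ good L g κ ξ R U) (a : V) : 0 ≤ sp L g κ R (good L g κ ξ R U) a y := by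
  unfold sp
  split_ifs
  · exact le_rfl
  · exact (qq_pos L hP hy).le

theorem sp_le_one {g κ ξ : ℝ} (hP : Par V g κ) {R U : Finset V} {y : V}
    (hy : y ∈ good L g κ ξ R U) (a : V) : sp L g κ R (good L g κ ξ R U) a y ≤ 1 := by
  unfold sp
  split_ifs
  · exact zero_le_one
  · exact qq_le_one L hP hy

theorem step_mono_valid {g κ ξ : ℝ} (hP : Par V g κ) {f f' : Finset V → Finset V → ℝ}
    (h : ∀ R U, Valid L R U → f R U ≤ f' R U) {R U : Finset V} (hv : Valid L R U) :
    step L g κ ξ f R U ≤ step L g κ ξ f' R U := by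
  unfold step
  have hg := hP.1
  apply add_le_add
  · apply Finset.sum_le_sum
    intro a _
    apply mul_le_mul_of_nonneg_left _ hg
    apply cs_mono
    · exact fun y hy => sp_nonneg L hP hy a
    · exact fun y hy => sp_le_one L hP hy a
    · intro W hW hne
      apply h
      split_ifs with ha
      · apply Valid.pick L hv (good_subset L g κ ξ R U) hW ha
        intro y hy hay
        apply hne y hy
        simp [sp, hay]
      · exact Valid.sub L hv (hW.trans (good_subset L g κ ξ R U))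
  · apply mul_le_mul_of_nonneg_left
    · apply cs_mono
      · exact fun y hy => (qq_pos L hP hy).le
      · exact fun y hy => qq_le_one L hP hy
      · intro W hW _
        exact h _ _ (Valid.sub L hv (hW.trans (good_subset L g κ ξ R U)))
    · have := hP.2.1
      linarith

theorem EE_mono_valid {γ : ℕ → ℝ} {κ ξ : ℝ} (t : ℕ) (hP : ∀ i < t, Par V (γ i) κ)
    {f f' : Finset V → Finset V → ℝ}
    (h : ∀ R U, Valid L R U → f R U ≤ f' R U) :
    EE L γ κ ξ t f ≤ EE L γ κ ξ t f' := by
  induction t generalizing f f' with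
  | zero => exact h _ _ (valid_init L)
  | succ t ih =>
    rw [EE_succ, EE_succ]
    apply ih (fun i hi => hP i (by omega))
    intro R U hv
    exact step_mono_valid L (hP t (by omega)) h hv

theorem EE_mono {γ : ℕ → ℝ} {κ ξ : ℝ} (t : ℕ) (hP : ∀ i < t, Par V (γ i) κ)
    {f f' : Finset V → Finset V → ℝ}
    (h : ∀ R U, f R U ≤ f' R U) :
    EE L γ κ ξ t f ≤ EE L γ κ ξ t f' :=
  EE_mono_valid L t hP (fun R U _ => h R U)

theorem EE_nonneg {γ : ℕ → ℝ} {κ ξ : ℝ} (t : ℕ) (hP : ∀ i < t, Par V (γ i) κ)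
    {f : Finset V → Finset V → ℝ} (h : ∀ R U, 0 ≤ f R U) :
    0 ≤ EE L γ κ ξ t f := by
  have := EE_mono (ξ := ξ) L t hP (f := 0) (f' := f) (fun R U => h R U)
  rwa [map_zero] at this

/-- exact one-step formula for `A ⊆ U` -/
theorem step_ind (g κ ξ : ℝ) (A R U : Finset V) :
    step L g κ ξ (fun _ W => if A ⊆ W then (1:ℝ) else 0) R U =
      if A ⊆ good L g κ ξ R U then
        (1 - g * ((A.biUnion (HH L R (good L g κ ξ R U))).card : ℝ)) *
          ∏ y ∈ A, qq L g κ R (good L g κ ξ R U) y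
      else 0 := by
  unfold step
  simp only [cs_ind]
  split_ifs with hA
  · have h1 : ∀ a : V, ∏ y ∈ A, sp L g κ R (good L g κ ξ R U) a y =
        if a ∈ A.biUnion (HH L R (good L g κ ξ R U)) then 0
        else ∏ y ∈ A, qq L g κ R (good L g κ ξ R U) y := by
      intro a
      split_ifs with ha
      · rw [Finset.mem_biUnion] at ha
        obtain ⟨y, hy, hay⟩ := ha
        apply Finset.prod_eq_zero hy
        simp [sp, hay]
      · apply Finset.prod_congr rfl
        intro y hy
        unfold sp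
        rw [if_neg]
        intro hay
        exact ha (Finset.mem_biUnion.mpr ⟨y, hy, hay⟩)
    simp only [h1]
    rw [← Finset.mul_sum]
    rw [Finset.sum_ite]
    simp only [Finset.sum_const_zero, zero_add, Finset.sum_const, nsmul_eq_mul]
    have h2 : ((Finset.univ.filter (fun a => a ∉ A.biUnion (HH L R (good L g κ ξ R U)))).card : ℝ)
        = (Fintype.card V : ℝ) - ((A.biUnion (HH L R (good L g κ ξ R U))).card : ℝ) := by
      have h3 := Finset.card_filter_add_card_filter_not (s := (Finset.univ : Finset V))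
        (fun a => a ∈ A.biUnion (HH L R (good L g κ ξ R U)))
      have h4 : Finset.univ.filter (fun a => a ∈ A.biUnion (HH L R (good L g κ ξ R U))) =
          A.biUnion (HH L R (good L g κ ξ R U)) := by
        ext a
        simp
      rw [h4, Finset.card_univ] at h3
      have h5 : ((A.biUnion (HH L R (good L g κ ξ R U))).card : ℝ) +
        ((Finset.univ.filter (fun a => a ∉ A.biUnion (HH L R (good L g κ ξ R U)))).card : ℝ)
        = (Fintype.card V : ℝ) := by exact_mod_cast h3
      linarith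
    rw [h2]
    ring
  · simp

/-- two points lie on at most one line -/
def Lin (L : Finset (Finset V)) : Prop :=
  ∀ l ∈ L, ∀ l' ∈ L, ∀ x y, x ≠ y → x ∈ l → y ∈ l → x ∈ l' → y ∈ l' → l = l'

/-- no triangles of lines -/
def TriFree (L : Finset (Finset V)) : Prop :=
  ∀ l1 ∈ L, ∀ l2 ∈ L, ∀ l3 ∈ L, l1 ≠ l2 → l2 ≠ l3 → l1 ≠ l3 →
    ∀ x y z, x ≠ y → y ≠ z → x ≠ z → x ∈ l1 → x ∈ l2 → y ∈ l2 → y ∈ l3 → z ∈ l1 → z ∈ l3 → False

variable {L}

theorem HH_sdiff_disj (hlin : Lin L) (htri : TriFree L) {l : Finset V} (hl : l ∈ L)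
    {R G : Finset V} {y y' : V} (hne : y ≠ y') (hy : y ∈ l) (hy' : y' ∈ l) :
    Disjoint (HH L R G y \ l) (HH L R G y' \ l) := by
  rw [Finset.disjoint_left]
  intro u hu hu'
  rw [Finset.mem_sdiff] at hu hu'
  obtain ⟨hu1, hul⟩ := hu
  obtain ⟨hu2, -⟩ := hu'
  have huy : u ≠ y := by rintro rfl; exact hul hy
  have huy' : u ≠ y' := by rintro rfl; exact hul hy'
  have h1 := (Finset.mem_insert.mp hu1).resolve_left huy
  have h2 := (Finset.mem_insert.mp hu2).resolve_left huy'
  rw [Finset.mem_filter] at h1 h2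
  obtain ⟨-, l1, hl1, hyl1, hul1, -⟩ := h1
  obtain ⟨-, l2, hl2, hyl2, hul2, -⟩ := h2
  have hl1l : l1 ≠ l := by rintro rfl; exact hul hul1
  have hl2l : l2 ≠ l := by rintro rfl; exact hul hul2
  have hl12 : l1 ≠ l2 := by
    rintro rfl
    exact hl1l (hlin l1 hl1 l hl y y' hne hyl1 hyl2 hy hy')
  exact htri l1 hl1 l2 hl2 l hl hl12 hl2l hl1l u y' y huy' hne.symm huy hul1 hul2 hyl2 hy' hyl1 hy

theorem HH_inter_subset {l R G : Finset V} {y : V} (hyG : y ∈ G) :
    HH L R G y ∩ l ⊆ G ∩ l := by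
  intro u hu
  rw [Finset.mem_inter] at hu ⊢
  refine ⟨?_, hu.2⟩
  rcases Finset.mem_insert.mp hu.1 with h | h
  · rw [h]; exact hyG
  · exact (Finset.mem_filter.mp h).1

theorem sum_card_sdiff (hlin : Lin L) (htri : TriFree L) {l : Finset V} (hl : l ∈ L)
    {R G A : Finset V} (hA : A ⊆ l) :
    ∑ y ∈ A, (HH L R G y \ l).card = ((A.biUnion (HH L R G)) \ l).card := by
  have h1 : (A.biUnion (HH L R G)) \ l = A.biUnion (fun y => HH L R G y \ l) := by
    ext u
    simp only [Finset.mem_sdiff, Finset.mem_biUnion]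
    constructor
    · rintro ⟨⟨y, hy, hu⟩, hul⟩
      exact ⟨y, hy, hu, hul⟩
    · rintro ⟨y, hy, hu, hul⟩
      exact ⟨⟨y, hy, hu⟩, hul⟩
  rw [h1, Finset.card_biUnion]
  intro y hy y' hy' hne
  exact HH_sdiff_disj hlin htri hl hne (hA hy) (hA hy')

/-- general inequality -/
theorem card_union_touched (hlin : Lin L) (htri : TriFree L) {l : Finset V} (hl : l ∈ L)
    {R G A : Finset V} (hA : A ⊆ l) (hAG : A ⊆ G) (hne : A.Nonempty) :
    ∑ y ∈ A, (HH L R G y).card ≤
      (A.biUnion (HH L R G)).card + (A.card - 1) * (G ∩ l).card := by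
  have h1 : ∀ y, (HH L R G y).card = (HH L R G y \ l).card + (HH L R G y ∩ l).card := by
    intro y
    rw [Finset.card_sdiff_add_card_inter]
  have h2 : (A.biUnion (HH L R G)).card =
      ((A.biUnion (HH L R G)) \ l).card + ((A.biUnion (HH L R G)) ∩ l).card := by
    rw [Finset.card_sdiff_add_card_inter]
  rw [h2, ← sum_card_sdiff hlin htri hl hA]
  simp only [h1]
  rw [Finset.sum_add_distrib]
  obtain ⟨y0, hy0⟩ := hne
  have h3 : ∑ y ∈ A, (HH L R G y ∩ l).card =
      (HH L R G y0 ∩ l).card + ∑ y ∈ A.erase y0, (HH L R G y ∩ l).card := by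
    rw [Finset.add_sum_erase A (fun y => (HH L R G y ∩ l).card) hy0]
  have h4 : ∑ y ∈ A.erase y0, (HH L R G y ∩ l).card ≤ (A.card - 1) * (G ∩ l).card := by
    rw [← Finset.card_erase_of_mem hy0]
    apply Finset.sum_le_card_nsmul
    intro y hy
    exact Finset.card_le_card (HH_inter_subset (hAG (Finset.mem_of_mem_erase hy)))
  have h5 : (HH L R G y0 ∩ l).card ≤ ((A.biUnion (HH L R G)) ∩ l).card := by
    apply Finset.card_le_card
    intro u hu
    rw [Finset.mem_inter] at hu ⊢
    exact ⟨Finset.mem_biUnion.mpr ⟨y0, hy0, hu.1⟩, hu.2⟩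
  omega

theorem card_union_untouched (hlin : Lin L) (htri : TriFree L) {l : Finset V} (hl : l ∈ L)
    {R G A : Finset V} (hA : A ⊆ l) (hR : l ∩ R = ∅) :
    ∑ y ∈ A, (HH L R G y).card = (A.biUnion (HH L R G)).card := by
  have h0 : ∀ y ∈ A, HH L R G y ∩ l = {y} := by
    intro y hy
    ext u
    rw [Finset.mem_inter, Finset.mem_singleton]
    constructor
    · rintro ⟨hu, hul⟩
      by_contra hne
      have h1 := (Finset.mem_insert.mp hu).resolve_left hne
      rw [Finset.mem_filter] at h1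
      obtain ⟨-, l1, hl1, hyl1, hul1, hR1⟩ := h1
      have := hlin l1 hl1 l hl u y hne hul1 hyl1 hul (hA hy)
      rw [this, hR] at hR1
      exact Finset.not_nonempty_empty hR1
    · rintro rfl
      exact ⟨Finset.mem_insert_self _ _, hA hy⟩
  have h1 : ∀ y ∈ A, (HH L R G y).card = (HH L R G y \ l).card + 1 := by
    intro y hy
    rw [← Finset.card_sdiff_add_card_inter (HH L R G y) l, h0 y hy, Finset.card_singleton]
  rw [Finset.sum_congr rfl h1, Finset.sum_add_distrib, sum_card_sdiff hlin htri hl hA]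
  have h2 : (A.biUnion (HH L R G)) ∩ l = A := by
    ext u
    rw [Finset.mem_inter, Finset.mem_biUnion]
    constructor
    · rintro ⟨⟨y, hy, hu⟩, hul⟩
      have : u ∈ HH L R G y ∩ l := Finset.mem_inter.mpr ⟨hu, hul⟩
      rw [h0 y hy, Finset.mem_singleton] at this
      rw [this]; exact hy
    · intro hu
      exact ⟨⟨u, hu, Finset.mem_insert_self _ _⟩, hA hu⟩
  rw [← Finset.card_sdiff_add_card_inter (A.biUnion (HH L R G)) l, h2]
  simp

theorem prod_one_sub_ge {ι : Type*} (s : Finset ι) (x : ι → ℝ) (h0 : ∀ i ∈ s, 0 ≤ x i)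
    (h1 : ∀ i ∈ s, x i ≤ 1) : 1 - ∑ i ∈ s, x i ≤ ∏ i ∈ s, (1 - x i) := by
  classical
  induction s using Finset.induction_on with
  | empty => simp
  | insert a s ha ih =>
    rw [Finset.sum_insert ha, Finset.prod_insert ha]
    have ih' := ih (fun i hi => h0 i (Finset.mem_insert_of_mem hi))
      (fun i hi => h1 i (Finset.mem_insert_of_mem hi))
    have ha0 := h0 a (Finset.mem_insert_self _ _)
    have ha1 := h1 a (Finset.mem_insert_self _ _)
    have hs : 0 ≤ ∑ i ∈ s, x i := Finset.sum_nonneg (fun i hi => h0 i (Finset.mem_insert_of_mem hi))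
    nlinarith

theorem prod_qq {g κ : ℝ} {R G A : Finset V} :
    ∏ y ∈ A, qq L g κ R G y =
      (1 - κ) ^ A.card / ∏ y ∈ A, (1 - g * ((HH L R G y).card : ℝ)) := by
  unfold qq
  rw [Finset.prod_div_distrib, Finset.prod_const]

/-- L1 -/
theorem step_untouched_le (hlin : Lin L) (htri : TriFree L) {l : Finset V} (hl : l ∈ L)
    {g κ ξ : ℝ} (hP : Par V g κ) {R U A : Finset V} (hA : A ⊆ l) (hR : l ∩ R = ∅) :
    step L g κ ξ (fun _ W => if A ⊆ W then (1:ℝ) else 0) R U ≤
      (1 - κ) ^ A.card * (if A ⊆ U then (1:ℝ) else 0) := by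
  rw [step_ind]
  have hk : 0 < 1 - κ := by have := hP.2.2.2; linarith
  split_ifs with h1 h2 h2
  · rw [prod_qq, mul_one]
    have hpos : ∀ y ∈ A, 0 < 1 - g * ((HH L R (good L g κ ξ R U) y).card : ℝ) := by
      intro y hy
      have := HH_good_le L hP.1 (h1 hy)
      linarith
    have hprod : 0 < ∏ y ∈ A, (1 - g * ((HH L R (good L g κ ξ R U) y).card : ℝ)) :=
      Finset.prod_pos hpos
    rw [← mul_div_assoc, div_le_iff₀ hprod, mul_comm]
    apply mul_le_mul_of_nonneg_left _ (pow_nonneg hk.le _)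
    have h3 := prod_one_sub_ge A (fun y => g * ((HH L R (good L g κ ξ R U) y).card : ℝ))
      (fun y _ => mul_nonneg hP.1 (Nat.cast_nonneg _))
      (fun y hy => by have := hpos y hy; linarith)
    refine le_trans (le_of_eq ?_) h3
    rw [← Finset.mul_sum]
    have h4 := card_union_untouched hlin htri hl (G := good L g κ ξ R U) hA hR
    rw [← h4]
    push_cast
    ring
  · exact absurd (h1.trans (good_subset L g κ ξ R U)) h2
  · rw [mul_one]; exact pow_nonneg hk.le _
  · simp

/-- L2 -/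
theorem step_touched_le (hlin : Lin L) (htri : TriFree L) {l : Finset V} (hl : l ∈ L)
    {g κ ξ : ℝ} (hP : Par V g κ) (hξ : 0 ≤ ξ) {R U A : Finset V} (hA : A ⊆ l) (hne : A.Nonempty)
    (hk2 : (1:ℝ)/2 ≤ (1 - κ) ^ A.card) :
    step L g κ ξ (fun _ W => if A ⊆ W then (1:ℝ) else 0) R U ≤
      (1 - κ) ^ A.card * (1 + 2 * ((A.card : ℝ) - 1) * ξ) *
        (if A ⊆ good L g κ ξ R U then (1:ℝ) else 0) := by
  rw [step_ind]
  have hk : 0 < 1 - κ := by have := hP.2.2.2; linarith
  split_ifs with h1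
  · rw [prod_qq, mul_one]
    have hle : ∀ y ∈ A, g * ((HH L R (good L g κ ξ R U) y).card : ℝ) ≤ κ :=
      fun y hy => HH_good_le L hP.1 (h1 hy)
    have hpos : ∀ y ∈ A, 0 < 1 - g * ((HH L R (good L g κ ξ R U) y).card : ℝ) := by
      intro y hy
      have := hle y hy
      linarith
    have hprod : 0 < ∏ y ∈ A, (1 - g * ((HH L R (good L g κ ξ R U) y).card : ℝ)) :=
      Finset.prod_pos hpos
    have hprod2 : (1:ℝ)/2 ≤ ∏ y ∈ A, (1 - g * ((HH L R (good L g κ ξ R U) y).card : ℝ)) := by
      refine hk2.trans ?_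
      rw [← Finset.prod_const]
      apply Finset.prod_le_prod
      · intro y _; exact hk.le
      · intro y hy
        have := hle y hy
        linarith
    have hcard : (1:ℝ) ≤ (A.card : ℝ) := by
      exact_mod_cast Finset.card_pos.mpr hne
    -- cap
    have hcap : g * (((good L g κ ξ R U) ∩ l).card : ℝ) ≤ ξ := by
      obtain ⟨y0, hy0⟩ := hne
      have h5 := (Finset.mem_filter.mp (h1 hy0)).2.2 l hl (hA hy0)
      have h6 : (((good L g κ ξ R U) ∩ l).card : ℝ) ≤ ((U ∩ l).card : ℝ) := by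
        exact_mod_cast Finset.card_le_card
          (Finset.inter_subset_inter_right (good_subset L g κ ξ R U))
      have := hP.1
      nlinarith
    rw [← mul_div_assoc, div_le_iff₀ hprod]
    have h3 := prod_one_sub_ge A (fun y => g * ((HH L R (good L g κ ξ R U) y).card : ℝ))
      (fun y _ => mul_nonneg hP.1 (Nat.cast_nonneg _))
      (fun y hy => by have := hpos y hy; linarith)
    have h4 := card_union_touched hlin htri hl (R := R) (G := good L g κ ξ R U) hA h1 hne
    have h7 : ∑ y ∈ A, ((HH L R (good L g κ ξ R U) y).card : ℝ) ≤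
        ((A.biUnion (HH L R (good L g κ ξ R U))).card : ℝ) +
          ((A.card : ℝ) - 1) * (((good L g κ ξ R U) ∩ l).card : ℝ) := by
      have h8 : ((A.card - 1 : ℕ) : ℝ) = (A.card : ℝ) - 1 := by
        rw [Nat.cast_sub (Finset.card_pos.mpr hne)]
        simp
      rw [← h8]
      exact_mod_cast h4
    have h9 : 1 - g * ((A.biUnion (HH L R (good L g κ ξ R U))).card : ℝ) ≤
        ∏ y ∈ A, (1 - g * ((HH L R (good L g κ ξ R U) y).card : ℝ)) +
          ((A.card : ℝ) - 1) * ξ := by
      rw [← Finset.mul_sum] at h3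
      have hg := hP.1
      have h10 := mul_le_mul_of_nonneg_left h7 hg
      have h11 : g * (((A.card : ℝ) - 1) * (((good L g κ ξ R U) ∩ l).card : ℝ)) ≤
          ((A.card : ℝ) - 1) * ξ := by
        have : g * (((A.card : ℝ) - 1) * (((good L g κ ξ R U) ∩ l).card : ℝ)) =
          ((A.card : ℝ) - 1) * (g * (((good L g κ ξ R U) ∩ l).card : ℝ)) := by ring
        rw [this]
        exact mul_le_mul_of_nonneg_left hcap (by linarith)
      nlinarith
    set Pr := ∏ y ∈ A, (1 - g * ((HH L R (good L g κ ξ R U) y).card : ℝ)) with hPr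
    have h12 : Pr + ((A.card : ℝ) - 1) * ξ ≤ (1 + 2 * ((A.card : ℝ) - 1) * ξ) * Pr := by
      have h13 : 0 ≤ ((A.card : ℝ) - 1) * ξ := mul_nonneg (by linarith) hξ
      nlinarith
    have h14 := h9.trans h12
    have h15 := mul_le_mul_of_nonneg_left h14 (pow_nonneg hk.le A.card)
    nlinarith
  · simp

theorem step_le_at {g κ ξ : ℝ} (hP : Par V g κ) {f : Finset V → Finset V → ℝ} {h : Finset V → ℝ}
    {R U : Finset V} (h1 : ∀ W ⊆ good L g κ ξ R U, f R W ≤ h W)
    (h2 : ∀ a ∈ good L g κ ξ R U, ∀ W ⊆ good L g κ ξ R U, f (insert a R) W ≤ h W) :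
    step L g κ ξ f R U ≤ step L g κ ξ (fun _ W => h W) R U := by
  unfold step
  apply add_le_add
  · apply Finset.sum_le_sum
    intro a _
    apply mul_le_mul_of_nonneg_left _ hP.1
    apply cs_mono
    · exact fun y hy => sp_nonneg L hP hy a
    · exact fun y hy => sp_le_one L hP hy a
    · intro W hW _
      split_ifs with ha
      · exact h2 a ha W hW
      · exact h1 W hW
  · apply mul_le_mul_of_nonneg_left
    · apply cs_mono
      · exact fun y hy => (qq_pos L hP hy).le
      · exact fun y hy => qq_le_one L hP hy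
      · intro W hW _
        exact h1 W hW
    · have := hP.2.1
      linarith

/-- indicator of `A ⊆ U` -/
def ind (A : Finset V) : Finset V → Finset V → ℝ := fun _ W => if A ⊆ W then 1 else 0

/-- indicator of `A ⊆ U` and `l` untouched -/
def indU (l A : Finset V) : Finset V → Finset V → ℝ :=
  fun R W => if A ⊆ W ∧ l ∩ R = ∅ then 1 else 0

/-- indicator of `A ⊆ U` and `l` touched -/
def indT (l A : Finset V) : Finset V → Finset V → ℝ :=
  fun R W => if A ⊆ W ∧ l ∩ R ≠ ∅ then 1 else 0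

theorem ind_nonneg (A R U : Finset V) : 0 ≤ ind A R U := by
  unfold ind; split_ifs <;> norm_num

theorem indU_nonneg (l A R U : Finset V) : 0 ≤ indU l A R U := by
  unfold indU; split_ifs <;> norm_num

theorem indT_nonneg (l A R U : Finset V) : 0 ≤ indT l A R U := by
  unfold indT; split_ifs <;> norm_num

theorem step_zero_fun {g κ ξ : ℝ} (R U : Finset V) :
    step L g κ ξ (fun _ _ => (0:ℝ)) R U = 0 := by
  unfold step
  simp [cs_const]

theorem step_indU_le (hlin : Lin L) (htri : TriFree L) {l : Finset V} (hl : l ∈ L)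
    {g κ ξ : ℝ} (hP : Par V g κ) {A : Finset V} (hA : A ⊆ l) (R U : Finset V) :
    step L g κ ξ (indU l A) R U ≤ (1 - κ) ^ A.card * indU l A R U := by
  have hk : 0 < 1 - κ := by have := hP.2.2.2; linarith
  by_cases hR : l ∩ R = ∅
  · have h1 : step L g κ ξ (indU l A) R U ≤
        step L g κ ξ (fun _ W => if A ⊆ W then (1:ℝ) else 0) R U := by
      apply step_le_at hP
      · intro W _
        unfold indU
        simp [hR]
      · intro a _ W _
        unfold indU
        split_ifs with h3 h4 h4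
        · exact le_rfl
        · exact absurd h3.1 h4
        · norm_num
        · exact le_rfl
    refine h1.trans ((step_untouched_le hlin htri hl hP hA hR).trans (le_of_eq ?_))
    unfold indU
    simp [hR]
  · have h1 : step L g κ ξ (indU l A) R U ≤ step L g κ ξ (fun _ _ => (0:ℝ)) R U := by
      apply step_le_at hP
      · intro W _
        unfold indU
        simp [hR]
      · intro a _ W _
        unfold indU
        rw [if_neg]
        rintro ⟨-, h4⟩
        apply hR
        apply Finset.subset_empty.mp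
        rw [← h4]
        exact Finset.inter_subset_inter_left (Finset.subset_insert _ _)
    rw [step_zero_fun] at h1
    exact h1.trans (mul_nonneg (pow_nonneg hk.le _) (indU_nonneg _ _ _ _))

/-- L3 -/
theorem step_indT_le (hlin : Lin L) (htri : TriFree L) {l : Finset V} (hl : l ∈ L)
    {g κ ξ : ℝ} (hP : Par V g κ) (hξ : 0 ≤ ξ) {y a : V} (hya : y ≠ a) (hy : y ∈ l) (ha : a ∈ l)
    (hk2 : (1:ℝ)/2 ≤ (1 - κ) ^ 2) (R U : Finset V) :
    step L g κ ξ (indT l {y, a}) R U ≤
      (1 - κ) ^ 2 * (1 + 2 * ξ) *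
        (if ({y, a} : Finset V) ⊆ good L g κ ξ R U ∧ l ∩ R ≠ ∅ then (1:ℝ) else 0)
      + g * ∑ b ∈ (l.erase y).erase a, indU l {y, a, b} R U := by
  have hk : 0 < 1 - κ := by have := hP.2.2.2; linarith
  have hcard : ({y, a} : Finset V).card = 2 := Finset.card_pair hya
  have hsub : ({y, a} : Finset V) ⊆ l := by
    intro u hu
    rw [Finset.mem_insert, Finset.mem_singleton] at hu
    rcases hu with rfl | rfl <;> assumption
  have hsum0 : 0 ≤ g * ∑ b ∈ (l.erase y).erase a, indU l {y, a, b} R U :=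
    mul_nonneg hP.1 (Finset.sum_nonneg (fun b _ => indU_nonneg _ _ _ _))
  by_cases hR : l ∩ R = ∅
  · -- untouched
    have hrhs : (if ({y, a} : Finset V) ⊆ good L g κ ξ R U ∧ l ∩ R ≠ ∅ then (1:ℝ) else 0) = 0 := by
      simp [hR]
    rw [hrhs, mul_zero, zero_add]
    unfold step
    have hz : cs (good L g κ ξ R U) (qq L g κ R (good L g κ ξ R U))
        (fun W => indT l {y, a} R W) = 0 := by
      have : (fun W => indT l {y, a} R W) = fun _ => (0:ℝ) := by
        funext W
        unfold indT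
        simp [hR]
      rw [this, cs_const]
    rw [hz, mul_zero, add_zero, ← Finset.mul_sum]
    apply mul_le_mul_of_nonneg_left _ hP.1
    -- bound each term
    have hterm : ∀ b : V, cs (good L g κ ξ R U) (sp L g κ R (good L g κ ξ R U) b)
        (fun W => indT l {y, a} (if b ∈ good L g κ ξ R U then insert b R else R) W) ≤
        if b ∈ (l.erase y).erase a then indU l {y, a, b} R U else 0 := by
      intro b
      by_cases hbG : b ∈ good L g κ ξ R U
      · by_cases hbl : b ∈ l
        · have h1 : (fun W => indT l {y, a} (if b ∈ good L g κ ξ R U then insert b R else R) W) =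
              fun W => if ({y, a} : Finset V) ⊆ W then (1:ℝ) else 0 := by
            funext W
            rw [if_pos hbG]
            unfold indT
            have : l ∩ insert b R ≠ ∅ := by
              intro h
              have : b ∈ l ∩ insert b R := Finset.mem_inter.mpr ⟨hbl, Finset.mem_insert_self _ _⟩
              rw [h] at this
              exact absurd this (Finset.notMem_empty _)
            simp [this]
          rw [h1, cs_ind]
          split_ifs with h2 h3 h3
          · rw [Finset.prod_pair hya]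
            have hyG : y ∈ good L g κ ξ R U := h2 (by simp)
            have haG : a ∈ good L g κ ξ R U := h2 (by simp)
            have h4 : indU l {y, a, b} R U = 1 := by
              unfold indU
              rw [if_pos]
              refine ⟨?_, hR⟩
              intro u hu
              simp only [Finset.mem_insert, Finset.mem_singleton] at hu
              rcases hu with rfl | rfl | rfl
              · exact good_subset L g κ ξ R U hyG
              · exact good_subset L g κ ξ R U haG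
              · exact good_subset L g κ ξ R U hbG
            rw [h4]
            exact mul_le_one₀ (sp_le_one L hP hyG b) (sp_nonneg L hP haG b) (sp_le_one L hP haG b)
          · -- b = y or b = a
            have hb : b = y ∨ b = a := by
              by_contra hcon
              push Not at hcon
              exact h3 (Finset.mem_erase.mpr ⟨hcon.2, Finset.mem_erase.mpr ⟨hcon.1, hbl⟩⟩)
            rw [Finset.prod_pair hya]
            rcases hb with rfl | rfl
            · have : sp L g κ R (good L g κ ξ R U) b b = 0 := by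
                unfold sp
                rw [if_pos (mem_HH_self L _ _ _)]
              rw [this, zero_mul]
            · have : sp L g κ R (good L g κ ξ R U) b b = 0 := by
                unfold sp
                rw [if_pos (mem_HH_self L _ _ _)]
              rw [this, mul_zero]
          · exact indU_nonneg _ _ _ _
          · exact le_rfl
        · have h1 : (fun W => indT l {y, a} (if b ∈ good L g κ ξ R U then insert b R else R) W) =
              fun _ => (0:ℝ) := by
            funext W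
            rw [if_pos hbG]
            unfold indT
            rw [Finset.inter_insert_of_notMem hbl, hR]
            simp
          rw [h1, cs_const]
          split_ifs
          · exact indU_nonneg _ _ _ _
          · exact le_rfl
      · have h1 : (fun W => indT l {y, a} (if b ∈ good L g κ ξ R U then insert b R else R) W) =
            fun _ => (0:ℝ) := by
          funext W
          rw [if_neg hbG]
          unfold indT
          simp [hR]
        rw [h1, cs_const]
        split_ifs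
        · exact indU_nonneg _ _ _ _
        · exact le_rfl
    refine (Finset.sum_le_sum (fun b _ => hterm b)).trans (le_of_eq ?_)
    rw [Finset.sum_ite_mem, Finset.univ_inter]
  · -- touched
    have h1 : step L g κ ξ (indT l {y, a}) R U ≤
        step L g κ ξ (fun _ W => if ({y, a} : Finset V) ⊆ W then (1:ℝ) else 0) R U := by
      apply step_le_at hP
      · intro W _
        unfold indT
        simp [hR]
      · intro b _ W _
        unfold indT
        split_ifs with h3 h4 h4
        · exact le_rfl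
        · exact absurd h3.1 h4
        · norm_num
        · exact le_rfl
    have h2 := step_touched_le hlin htri hl hP hξ (R := R) (U := U) hsub
      ⟨y, by simp⟩ (by rw [hcard]; exact hk2)
    rw [hcard] at h2
    have h3 : (1 - κ) ^ 2 * (1 + 2 * (((2:ℕ) : ℝ) - 1) * ξ) = (1 - κ) ^ 2 * (1 + 2 * ξ) := by
      push_cast
      ring
    rw [h3] at h2
    have h4 : (if ({y, a} : Finset V) ⊆ good L g κ ξ R U then (1:ℝ) else 0) =
        (if ({y, a} : Finset V) ⊆ good L g κ ξ R U ∧ l ∩ R ≠ ∅ then (1:ℝ) else 0) := by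
      simp [hR]
    rw [h4] at h2
    linarith

/-- telescoping -/
theorem telescope {c : ℝ} (hc : 0 ≤ c) (x e n : ℕ → ℝ) (T : ℕ) (he : ∀ t < T, 0 ≤ e t)
    (hn : ∀ t < T, 0 ≤ n t) (h : ∀ t < T, x (t+1) ≤ (1 + c) * (x t - e t) + n t) :
    x T + ∑ t ∈ Finset.range T, e t ≤ (1 + c) ^ T * (x 0 + ∑ t ∈ Finset.range T, n t) := by
  induction T with
  | zero => simp
  | succ T ih =>
    have ih' := ih (fun t ht => he t (by omega)) (fun t ht => hn t (by omega))
      (fun t ht => h t (by omega))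
    have hT := h T (by omega)
    rw [Finset.sum_range_succ, Finset.sum_range_succ]
    have h1 : (1:ℝ) ≤ (1 + c) ^ (T+1) := one_le_pow₀ (by linarith)
    have h2 : (1 + c) ^ (T+1) = (1 + c) * (1 + c) ^ T := pow_succ' _ _
    have hs : 0 ≤ ∑ t ∈ Finset.range T, e t :=
      Finset.sum_nonneg (fun t ht => he t (by have := Finset.mem_range.mp ht; omega))
    have h3 := mul_le_mul_of_nonneg_left ih' (by linarith : (0:ℝ) ≤ 1 + c)
    have h4 : n T ≤ (1 + c) ^ (T+1) * n T := by
      have := hn T (by omega)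
      nlinarith
    have h5 := he T (by omega)
    calc x (T+1) + (∑ t ∈ Finset.range T, e t + e T)
        ≤ (1 + c) * (x T - e T) + n T + (∑ t ∈ Finset.range T, e t + e T) := by linarith
      _ ≤ (1 + c) * (x T + ∑ t ∈ Finset.range T, e t) + n T := by nlinarith
      _ ≤ (1 + c) * ((1 + c) ^ T * (x 0 + ∑ t ∈ Finset.range T, n t)) + (1 + c) ^ (T+1) * n T := by
          linarith
      _ = (1 + c) ^ (T+1) * (x 0 + (∑ t ∈ Finset.range T, n t + n T)) := by rw [h2]; ring

/-- All the parameters of the process. -/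
structure Params (V : Type*) [Fintype V] where
  T : ℕ
  γ0 : ℝ
  κ : ℝ
  ξ : ℝ
  γ0_pos : 0 < γ0
  κ_pos : 0 < κ
  ξ_pos : 0 < ξ
  κ_half : (1:ℝ) / 2 ≤ (1 - κ) ^ 4
  κ_lt : κ < 1
  hN : (Fintype.card V : ℝ) * γ0 ≤ (1 - κ) ^ T

namespace Params

variable (P : Params V)

/-- survival probability -/
def th (t : ℕ) : ℝ := (1 - P.κ) ^ t

/-- picking rate -/
def ga (t : ℕ) : ℝ := P.γ0 / P.th t

theorem ok_pos : 0 < 1 - P.κ := by have := P.κ_lt; linarith

theorem th_pos (t : ℕ) : 0 < P.th t := pow_pos P.ok_pos t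

theorem ga_pos (t : ℕ) : 0 < P.ga t := div_pos P.γ0_pos (P.th_pos t)

theorem ga_mul (t : ℕ) : P.ga t * P.th t = P.γ0 := div_mul_cancel₀ _ (P.th_pos t).ne'

theorem th_succ (t : ℕ) : P.th (t+1) = P.th t * (1 - P.κ) := pow_succ _ _

theorem th_le {t s : ℕ} (h : t ≤ s) : P.th s ≤ P.th t := by
  unfold th
  apply pow_le_pow_of_le_one P.ok_pos.le _ h
  have := P.κ_pos
  linarith

theorem par {t : ℕ} (h : t ≤ P.T) : Par V (P.ga t) P.κ := by
  refine ⟨(P.ga_pos t).le, ?_, P.κ_pos.le, P.κ_lt⟩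
  unfold ga
  rw [← mul_div_assoc, div_le_one (P.th_pos t)]
  exact P.hN.trans (P.th_le h)

theorem par' {t : ℕ} (h : t ≤ P.T) : ∀ i < t, Par V (P.ga i) P.κ :=
  fun i hi => P.par (by omega)

/-- square bound -/
theorem half2 : (1:ℝ)/2 ≤ (1 - P.κ) ^ 2 := by
  have h1 := P.κ_half
  have h2 : (1 - P.κ) ^ 4 ≤ (1 - P.κ) ^ 2 :=
    pow_le_pow_of_le_one P.ok_pos.le (by have := P.κ_pos; linarith) (by norm_num)
  linarith

end Params

/-- expectation functional of the process with parameters `P` -/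
def Ex (P : Params V) (L : Finset (Finset V)) (t : ℕ) :
    (Finset V → Finset V → ℝ) →ₗ[ℝ] ℝ := EE L P.ga P.κ P.ξ t

variable (P : Params V)

theorem Ex_succ (t : ℕ) (f : Finset V → Finset V → ℝ) :
    Ex P L (t+1) f = Ex P L t (step L (P.ga t) P.κ P.ξ f) := rfl

theorem Ex_zero (f : Finset V → Finset V → ℝ) :
    Ex P L 0 f = f ∅ Finset.univ := rfl

theorem Ex_mono {t : ℕ} (ht : t ≤ P.T) {f f' : Finset V → Finset V → ℝ}
    (h : ∀ R U, f R U ≤ f' R U) : Ex P L t f ≤ Ex P L t f' :=
  EE_mono L t (P.par' ht) h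

theorem Ex_mono_valid {t : ℕ} (ht : t ≤ P.T) {f f' : Finset V → Finset V → ℝ}
    (h : ∀ R U, Valid L R U → f R U ≤ f' R U) : Ex P L t f ≤ Ex P L t f' :=
  EE_mono_valid L t (P.par' ht) h

theorem Ex_nonneg {t : ℕ} (ht : t ≤ P.T) {f : Finset V → Finset V → ℝ}
    (h : ∀ R U, 0 ≤ f R U) : 0 ≤ Ex P L t f :=
  EE_nonneg L t (P.par' ht) h

theorem Ex_indU_le (hlin : Lin L) (htri : TriFree L) {l : Finset V} (hl : l ∈ L)
    {A : Finset V} (hA : A ⊆ l) {t : ℕ} (ht : t ≤ P.T) :
    Ex P L t (indU l A) ≤ P.th t ^ A.card := by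
  induction t with
  | zero =>
    rw [Ex_zero]
    unfold indU Params.th
    split_ifs <;> simp
  | succ t ih =>
    have ih' := ih (by omega)
    rw [Ex_succ]
    have h1 : Ex P L t (step L (P.ga t) P.κ P.ξ (indU l A)) ≤
        Ex P L t ((1 - P.κ) ^ A.card • indU l A) := by
      apply Ex_mono P (by omega)
      intro R U
      exact step_indU_le hlin htri hl (P.par (by omega)) hA R U
    rw [map_smul, smul_eq_mul] at h1
    refine h1.trans ?_
    rw [P.th_succ, mul_pow, mul_comm]
    exact mul_le_mul_of_nonneg_right ih' (pow_nonneg P.ok_pos.le _)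

/-- `y` gets dropped at time `t` -/
def drp (L : Finset (Finset V)) (t : ℕ) (y : V) : Finset V → Finset V → ℝ :=
  fun R U => if y ∈ U ∧ y ∉ good L (P.ga t) P.κ P.ξ R U then 1 else 0

theorem drp_nonneg (t : ℕ) (y : V) (R U : Finset V) : 0 ≤ drp P L t y R U := by
  unfold drp; split_ifs <;> norm_num

theorem Ex_ind_succ (t : ℕ) (y : V) :
    Ex P L (t+1) (ind {y}) = (1 - P.κ) * (Ex P L t (ind {y}) - Ex P L t (drp P L t y)) := by
  rw [Ex_succ, ← map_sub, ← smul_eq_mul, ← map_smul]
  congr 1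
  funext R U
  have h := step_ind L (P.ga t) P.κ P.ξ {y} R U
  unfold ind
  rw [h]
  simp only [Finset.singleton_subset_iff, Finset.singleton_biUnion, Finset.prod_singleton,
    Pi.smul_apply, Pi.sub_apply, smul_eq_mul]
  unfold drp
  by_cases hy : y ∈ good L (P.ga t) P.κ P.ξ R U
  · have hyU := good_subset L _ _ _ R U hy
    have h1 := HH_good_le L (P.ga_pos t).le hy
    have h2 : 1 - P.ga t * ((HH L R (good L (P.ga t) P.κ P.ξ R U) y).card : ℝ) ≠ 0 := by
      have := P.κ_lt
      intro h3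
      linarith
    simp only [hy, hyU, if_true, not_true, and_false, if_false, sub_zero, mul_one]
    unfold qq
    rw [mul_div_assoc', mul_comm, mul_div_assoc, div_self h2, mul_one]
  · by_cases hyU : y ∈ U
    · simp [hy, hyU]
    · simp [hy, hyU]

theorem Ex_ind_eq {t : ℕ} (ht : t ≤ P.T) (y : V) :
    Ex P L t (ind {y}) =
      P.th t * (1 - ∑ i ∈ Finset.range t, Ex P L i (drp P L i y) / P.th i) := by
  induction t with
  | zero =>
    rw [Ex_zero]
    simp [ind, Params.th]
  | succ t ih =>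
    rw [Ex_ind_succ P t y, ih (by omega), Finset.sum_range_succ, P.th_succ]
    have := (P.th_pos t).ne'
    field_simp
    ring

/-- overload of the neighbourhood -/
def drF (L : Finset (Finset V)) (t : ℕ) (y : V) : Finset V → Finset V → ℝ :=
  fun R U => if y ∈ U ∧ P.κ < P.ga t * ((HH L R U y).card : ℝ) then 1 else 0

/-- overload of a line -/
def drL (t : ℕ) (l : Finset V) (y : V) : Finset V → Finset V → ℝ :=
  fun _ U => if y ∈ U ∧ P.ξ < P.ga t * ((U ∩ l).card : ℝ) then 1 else 0

theorem drF_nonneg (t : ℕ) (y : V) (R U : Finset V) : 0 ≤ drF P L t y R U := by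
  unfold drF; split_ifs <;> norm_num

theorem drL_nonneg (t : ℕ) (l : Finset V) (y : V) (R U : Finset V) : 0 ≤ drL P t l y R U := by
  unfold drL; split_ifs <;> norm_num

theorem drp_le (t : ℕ) (y : V) (R U : Finset V) :
    drp P L t y R U ≤ drF P L t y R U + ∑ l ∈ L.filter (fun l => y ∈ l), drL P t l y R U := by
  have h0 : 0 ≤ ∑ l ∈ L.filter (fun l => y ∈ l), drL P t l y R U :=
    Finset.sum_nonneg (fun l _ => drL_nonneg P t l y R U)
  have h1 := drF_nonneg (L := L) P t y R U
  unfold drp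
  split_ifs with h
  · obtain ⟨hyU, hyg⟩ := h
    unfold good at hyg
    rw [Finset.mem_filter] at hyg
    push Not at hyg
    have h2 := hyg hyU
    unfold Ok at h2
    rw [not_and_or] at h2
    rcases h2 with h3 | h3
    · have : drF P L t y R U = 1 := by
        unfold drF
        rw [if_pos ⟨hyU, not_le.mp h3⟩]
      linarith
    · push Not at h3
      obtain ⟨l, hl, hyl, hlt⟩ := h3
      have h4 : drL P t l y R U = 1 := by
        unfold drL
        rw [if_pos ⟨hyU, hlt⟩]
      have h5 : drL P t l y R U ≤ ∑ l ∈ L.filter (fun l => y ∈ l), drL P t l y R U :=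
        Finset.single_le_sum (fun l _ => drL_nonneg P t l y R U)
          (Finset.mem_filter.mpr ⟨hl, hyl⟩)
      linarith
  · linarith

theorem Ex_ind4_succ (hlin : Lin L) (htri : TriFree L) {l : Finset V} (hl : l ∈ L)
    {t : ℕ} (ht : t + 1 ≤ P.T) {y : V} (hy : y ∈ l) {B : Finset V}
    (hB : B ∈ (l.erase y).powersetCard 3) :
    Ex P L (t+1) (ind (insert y B)) ≤ (1 - P.κ) ^ 4 * (1 + 6 * P.ξ) *
      (Ex P L t (ind (insert y B)) - Ex P L t (ind (insert y B) * drL P t l y)) := by
  rw [Finset.mem_powersetCard] at hB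
  have hyB : y ∉ B := fun h => Finset.notMem_erase y l (hB.1 h)
  have hcard : (insert y B).card = 4 := by rw [Finset.card_insert_of_notMem hyB, hB.2]
  have hsub : insert y B ⊆ l := by
    intro u hu
    rcases Finset.mem_insert.mp hu with h | h
    · rw [h]; exact hy
    · exact Finset.mem_of_mem_erase (hB.1 h)
  rw [Ex_succ, ← map_sub, ← smul_eq_mul, ← map_smul]
  apply Ex_mono P (by omega)
  intro R U
  have h1 := step_touched_le hlin htri hl (P.par (t := t) (by omega)) P.ξ_pos.le (R := R) (U := U)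
    hsub (Finset.insert_nonempty _ _) (by rw [hcard]; exact P.κ_half)
  rw [hcard] at h1
  have h2 : (1 - P.κ) ^ 4 * (1 + 2 * (((4:ℕ) : ℝ) - 1) * P.ξ) = (1 - P.κ) ^ 4 * (1 + 6 * P.ξ) := by
    push_cast
    ring
  rw [h2] at h1
  refine h1.trans ?_
  simp only [Pi.smul_apply, Pi.sub_apply, Pi.mul_apply, smul_eq_mul]
  apply mul_le_mul_of_nonneg_left
  · unfold ind drL
    split_ifs with h3 h4 h5 h6 h7 h8
    · exfalso
      have := (Finset.mem_filter.mp (h3 (Finset.mem_insert_self _ _))).2.2 l hl hy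
      linarith [h5.2]
    · norm_num
    · exact absurd (h3.trans (good_subset L _ _ _ R U)) h4
    · exact absurd (h3.trans (good_subset L _ _ _ R U)) h4
    · norm_num
    · norm_num
    · norm_num
    · norm_num
  · apply mul_nonneg (pow_nonneg P.ok_pos.le _)
    have := P.ξ_pos
    linarith

theorem choose_three_ge {m : ℕ} {X : ℝ} (hX : 8 ≤ X) (hm : X < (m : ℝ) + 1) :
    X ^ 3 / 48 ≤ ((m.choose 3 : ℕ) : ℝ) := by
  have hm7 : 7 < (m:ℝ) := by linarith
  have hm7' : 7 < m := by exact_mod_cast hm7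
  have h1 : (m + 1 - 3) ^ 3 ≤ m.descFactorial 3 := Nat.pow_sub_le_descFactorial m 3
  rw [Nat.descFactorial_eq_factorial_mul_choose] at h1
  have h2 : ((m + 1 - 3 : ℕ) : ℝ) = (m : ℝ) - 2 := by
    rw [Nat.cast_sub (by omega)]
    push_cast
    ring
  have h3 : ((m:ℝ) - 2) ^ 3 ≤ 6 * ((m.choose 3 : ℕ) : ℝ) := by
    rw [← h2]
    have h4 : (((m + 1 - 3) ^ 3 : ℕ) : ℝ) ≤ ((Nat.factorial 3 * m.choose 3 : ℕ) : ℝ) := by
      exact_mod_cast h1
    rw [show Nat.factorial 3 = 6 from rfl] at h4
    push_cast at h4 ⊢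
    exact h4
  have h5 : X / 2 ≤ (m:ℝ) - 2 := by linarith
  have h6 : (X / 2) ^ 3 ≤ ((m:ℝ) - 2) ^ 3 := pow_le_pow_left₀ (by linarith) h5 3
  nlinarith

theorem drL_count {t : ℕ} {l : Finset V} {y : V} (hy : y ∈ l)
    (hX : 8 ≤ P.ξ * P.th t / P.γ0) (R U : Finset V) :
    (P.ξ * P.th t / P.γ0) ^ 3 / 48 * drL P t l y R U ≤
      ∑ B ∈ (l.erase y).powersetCard 3, ind (insert y B) R U * drL P t l y R U := by
  by_cases h : y ∈ U ∧ P.ξ < P.ga t * ((U ∩ l).card : ℝ)
  · have h1 : drL P t l y R U = 1 := by unfold drL; rw [if_pos h]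
    rw [h1]
    simp only [mul_one]
    obtain ⟨hyU, hlt⟩ := h
    set X := P.ξ * P.th t / P.γ0 with hXdef
    have hyUl : y ∈ U ∩ l := Finset.mem_inter.mpr ⟨hyU, hy⟩
    have hm : X < (((U ∩ l).erase y).card : ℝ) + 1 := by
      rw [Finset.card_erase_of_mem hyUl]
      have hpos : 1 ≤ (U ∩ l).card := Finset.card_pos.mpr ⟨y, hyUl⟩
      rw [Nat.cast_sub hpos]
      push_cast
      have h2 : P.ξ * P.th t / P.γ0 < ((U ∩ l).card : ℝ) := by
        rw [div_lt_iff₀ P.γ0_pos]
        have h3 := mul_lt_mul_of_pos_right hlt (P.th_pos t)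
        have h4 := P.ga_mul t
        calc P.ξ * P.th t < P.ga t * ((U ∩ l).card : ℝ) * P.th t := h3
          _ = ((U ∩ l).card : ℝ) * (P.ga t * P.th t) := by ring
          _ = ((U ∩ l).card : ℝ) * P.γ0 := by rw [h4]
      linarith
    refine (choose_three_ge hX hm).trans ?_
    rw [← Finset.card_powersetCard]
    unfold ind
    rw [Finset.sum_boole]
    norm_cast
    apply Finset.card_le_card
    intro B hB
    rw [Finset.mem_powersetCard] at hB
    rw [Finset.mem_filter, Finset.mem_powersetCard]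
    refine ⟨⟨?_, hB.2⟩, ?_⟩
    · exact hB.1.trans (Finset.erase_subset_erase _ Finset.inter_subset_right)
    · intro u hu
      rcases Finset.mem_insert.mp hu with h5 | h5
      · rw [h5]; exact hyU
      · exact (Finset.mem_inter.mp (Finset.mem_of_mem_erase (hB.1 h5))).1
  · have h1 : drL P t l y R U = 0 := by unfold drL; rw [if_neg h]
    rw [h1]
    simp

theorem sum_drL_le (hlin : Lin L) (htri : TriFree L) {l : Finset V} (hl : l ∈ L)
    {y : V} (hy : y ∈ l) (hX : 8 ≤ P.ξ * P.th P.T / P.γ0) :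
    ∑ t ∈ Finset.range P.T, Ex P L t (drL P t l y) / P.th t ≤
      48 * (P.γ0 / P.ξ) ^ 3 * ((1 + 6 * P.ξ) ^ P.T *
        (((l.erase y).powersetCard 3).card : ℝ)) := by
  set Bs := (l.erase y).powersetCard 3 with hBs
  set x : ℕ → ℝ := fun t => (∑ B ∈ Bs, Ex P L t (ind (insert y B))) / P.th t ^ 4 with hx
  set e : ℕ → ℝ := fun t => (∑ B ∈ Bs, Ex P L t (ind (insert y B) * drL P t l y)) / P.th t ^ 4
    with he
  have hthp : ∀ t, 0 < P.th t ^ 4 := fun t => pow_pos (P.th_pos t) 4
  have hmulnn : ∀ t (B : Finset V) (R U : Finset V),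
      0 ≤ (ind (insert y B) * drL P t l y) R U := by
    intro t B R U
    exact mul_nonneg (ind_nonneg _ _ _) (drL_nonneg P t l y R U)
  have hrec : ∀ t < P.T, x (t+1) ≤ (1 + 6 * P.ξ) * (x t - e t) + 0 := by
    intro t ht
    rw [add_zero]
    simp only [hx, he]
    rw [← sub_div, ← Finset.sum_sub_distrib, div_le_iff₀ (hthp (t+1))]
    have h1 : ∑ B ∈ Bs, Ex P L (t+1) (ind (insert y B)) ≤
        ∑ B ∈ Bs, (1 - P.κ) ^ 4 * (1 + 6 * P.ξ) *
          (Ex P L t (ind (insert y B)) - Ex P L t (ind (insert y B) * drL P t l y)) := by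
      apply Finset.sum_le_sum
      intro B hB
      exact Ex_ind4_succ P hlin htri hl (by omega) hy hB
    refine h1.trans (le_of_eq ?_)
    rw [← Finset.mul_sum, P.th_succ]
    have := (P.th_pos t).ne'
    field_simp
  have htel := telescope (c := 6 * P.ξ) (by have := P.ξ_pos; linarith) x e (fun _ => 0) P.T
    (fun t ht => div_nonneg (Finset.sum_nonneg (fun B _ => Ex_nonneg P (by omega) (hmulnn t B)))
      (hthp t).le) (fun _ _ => le_rfl) hrec
  have hxT : 0 ≤ x P.T := div_nonneg
    (Finset.sum_nonneg (fun B _ => Ex_nonneg P le_rfl (fun R U => ind_nonneg _ R U))) (hthp _).le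
  have hx0 : x 0 ≤ (Bs.card : ℝ) := by
    simp only [hx]
    have : P.th 0 = 1 := pow_zero _
    rw [this, one_pow, div_one]
    have h2 : ∀ B ∈ Bs, Ex P L 0 (ind (insert y B)) ≤ 1 := by
      intro B _
      rw [Ex_zero]
      unfold ind
      split_ifs <;> norm_num
    refine (Finset.sum_le_sum h2).trans ?_
    simp
  have hsum : ∑ t ∈ Finset.range P.T, e t ≤ (1 + 6 * P.ξ) ^ P.T * (Bs.card : ℝ) := by
    have h3 : (1 + 6 * P.ξ) ^ P.T * (x 0 + ∑ t ∈ Finset.range P.T, (0:ℝ)) ≤
        (1 + 6 * P.ξ) ^ P.T * (Bs.card : ℝ) := by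
      rw [Finset.sum_const_zero, add_zero]
      apply mul_le_mul_of_nonneg_left hx0
      apply pow_nonneg
      have := P.ξ_pos
      linarith
    linarith
  have hterm : ∀ t ∈ Finset.range P.T, Ex P L t (drL P t l y) / P.th t ≤
      48 * (P.γ0 / P.ξ) ^ 3 * e t := by
    intro t ht
    rw [Finset.mem_range] at ht
    have hXt : 8 ≤ P.ξ * P.th t / P.γ0 := by
      refine hX.trans ?_
      apply div_le_div_of_nonneg_right _ P.γ0_pos.le
      exact mul_le_mul_of_nonneg_left (P.th_le (by omega)) P.ξ_pos.le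
    have h4 : (P.ξ * P.th t / P.γ0) ^ 3 / 48 * Ex P L t (drL P t l y) ≤
        ∑ B ∈ Bs, Ex P L t (ind (insert y B) * drL P t l y) := by
      rw [← map_sum, ← smul_eq_mul, ← map_smul]
      apply Ex_mono P (by omega)
      intro R U
      simp only [Pi.smul_apply, smul_eq_mul, Finset.sum_apply, Pi.mul_apply]
      exact drL_count P hy hXt R U
    simp only [he]
    rw [div_le_iff₀ (P.th_pos t)]
    have hth := P.th_pos t
    have hg := P.γ0_pos
    have hxi := P.ξ_pos
    have h5 : 48 * (P.γ0 / P.ξ) ^ 3 *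
        ((∑ B ∈ Bs, Ex P L t (ind (insert y B) * drL P t l y)) / P.th t ^ 4) * P.th t =
        (∑ B ∈ Bs, Ex P L t (ind (insert y B) * drL P t l y)) *
          (48 * P.γ0 ^ 3 / (P.ξ ^ 3 * P.th t ^ 3)) := by
      field_simp
    rw [h5]
    have h6 : 0 ≤ 48 * P.γ0 ^ 3 / (P.ξ ^ 3 * P.th t ^ 3) := by positivity
    have h7 := mul_le_mul_of_nonneg_right h4 h6
    refine le_trans (le_of_eq ?_) h7
    field_simp
  refine (Finset.sum_le_sum hterm).trans ?_
  rw [← Finset.mul_sum]
  apply mul_le_mul_of_nonneg_left hsum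
  have hg := P.γ0_pos
  have hxi := P.ξ_pos
  positivity

theorem Ex_indT_succ (hlin : Lin L) (htri : TriFree L) {l : Finset V} (hl : l ∈ L)
    {t : ℕ} (ht : t + 1 ≤ P.T) {y a : V} (hya : y ≠ a) (hy : y ∈ l) (ha : a ∈ l) :
    Ex P L (t+1) (indT l {y, a}) ≤ (1 - P.κ) ^ 2 * (1 + 2 * P.ξ) *
      (Ex P L t (indT l {y, a}) - Ex P L t (indT l {y, a} * drF P L t y)) +
      P.ga t * ((l.card : ℝ) * P.th t ^ 3) := by
  have h1 : Ex P L (t+1) (indT l {y, a}) ≤
      Ex P L t (((1 - P.κ) ^ 2 * (1 + 2 * P.ξ)) •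
        (indT l {y, a} - indT l {y, a} * drF P L t y) +
        P.ga t • ∑ b ∈ (l.erase y).erase a, indU l {y, a, b}) := by
    rw [Ex_succ]
    apply Ex_mono P (by omega)
    intro R U
    refine (step_indT_le hlin htri hl (P.par (t := t) (by omega)) P.ξ_pos.le hya hy ha
      P.half2 R U).trans ?_
    simp only [Pi.add_apply, Pi.smul_apply, Pi.sub_apply, Pi.mul_apply, smul_eq_mul,
      Finset.sum_apply]
    apply add_le_add _ le_rfl
    apply mul_le_mul_of_nonneg_left
    · unfold indT drF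
      split_ifs with h3 h4 h5 h6 h7 h8
      · exfalso
        have := (Finset.mem_filter.mp (h3.1 (Finset.mem_insert_self _ _))).2.1
        linarith [h5.2]
      · norm_num
      · exact absurd ⟨h3.1.trans (good_subset L _ _ _ R U), h3.2⟩ h4
      · exact absurd ⟨h3.1.trans (good_subset L _ _ _ R U), h3.2⟩ h4
      · norm_num
      · norm_num
      · norm_num
      · norm_num
    · apply mul_nonneg (pow_nonneg P.ok_pos.le _)
      have := P.ξ_pos
      linarith
  rw [map_add, map_smul, map_smul, map_sub, map_sum, smul_eq_mul, smul_eq_mul] at h1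
  refine h1.trans ?_
  apply add_le_add le_rfl
  apply mul_le_mul_of_nonneg_left _ (P.ga_pos t).le
  have h2 : ∀ b ∈ (l.erase y).erase a, Ex P L t (indU l {y, a, b}) ≤ P.th t ^ 3 := by
    intro b hb
    rw [Finset.mem_erase, Finset.mem_erase] at hb
    have hc : ({y, a, b} : Finset V).card = 3 := by
      rw [Finset.card_eq_three]
      exact ⟨y, a, b, hya, fun h => hb.2.1 h.symm, fun h => hb.1 h.symm, rfl⟩
    have hs : ({y, a, b} : Finset V) ⊆ l := by
      intro u hu
      simp only [Finset.mem_insert, Finset.mem_singleton] at hu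
      rcases hu with rfl | rfl | rfl
      · exact hy
      · exact ha
      · exact hb.2.2
    have := Ex_indU_le P hlin htri hl hs (t := t) (by omega)
    rwa [hc] at this
  refine (Finset.sum_le_sum h2).trans ?_
  rw [Finset.sum_const, nsmul_eq_mul]
  apply mul_le_mul_of_nonneg_right _ (pow_nonneg (P.th_pos t).le _)
  exact_mod_cast (Finset.card_le_card (Finset.erase_subset _ _)).trans
    (Finset.card_le_card (Finset.erase_subset _ _))

theorem HH_card_le {R U : Finset V} {y : V} (hyU : y ∈ U) :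
    ((HH L R U y).card : ℝ) ≤ 1 + ∑ l ∈ L.filter (fun l => y ∈ l),
      ∑ a ∈ l.erase y, indT l {y, a} R U := by
  have h1 : HH L R U y ⊆ insert y ((L.filter (fun l => y ∈ l)).biUnion
      (fun l => (l.erase y).filter (fun a => ({y, a} : Finset V) ⊆ U ∧ l ∩ R ≠ ∅))) := by
    intro u hu
    by_cases huy : u = y
    · rw [huy]; exact Finset.mem_insert_self _ _
    · have h2 := (Finset.mem_insert.mp hu).resolve_left huy
      rw [Finset.mem_filter] at h2
      obtain ⟨huU, l, hl, hyl, hul, hR⟩ := h2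
      apply Finset.mem_insert_of_mem
      rw [Finset.mem_biUnion]
      refine ⟨l, Finset.mem_filter.mpr ⟨hl, hyl⟩, ?_⟩
      rw [Finset.mem_filter, Finset.mem_erase]
      refine ⟨⟨huy, hul⟩, ?_, Finset.nonempty_iff_ne_empty.mp hR⟩
      intro w hw
      rw [Finset.mem_insert, Finset.mem_singleton] at hw
      rcases hw with rfl | rfl <;> assumption
  have h2 := (Finset.card_le_card h1).trans (Finset.card_insert_le _ _)
  have h3 := h2.trans (Nat.add_le_add_right Finset.card_biUnion_le 1)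
  have h4 : ∀ l : Finset V, (((l.erase y).filter
      (fun a => ({y, a} : Finset V) ⊆ U ∧ l ∩ R ≠ ∅)).card : ℝ) =
      ∑ a ∈ l.erase y, indT l {y, a} R U := by
    intro l
    unfold indT
    rw [Finset.sum_boole]
  have h5 : ((HH L R U y).card : ℝ) ≤ ∑ l ∈ L.filter (fun l => y ∈ l),
      (((l.erase y).filter (fun a => ({y, a} : Finset V) ⊆ U ∧ l ∩ R ≠ ∅)).card : ℝ) + 1 := by
    exact_mod_cast h3
  simp only [h4] at h5
  linarith

theorem drF_count {t : ℕ} {y : V} (hX : 2 ≤ P.κ * P.th t / P.γ0) (R U : Finset V) :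
    (P.κ * P.th t / P.γ0) / 2 * drF P L t y R U ≤
      ∑ l ∈ L.filter (fun l => y ∈ l), ∑ a ∈ l.erase y,
        indT l {y, a} R U * drF P L t y R U := by
  by_cases h : y ∈ U ∧ P.κ < P.ga t * ((HH L R U y).card : ℝ)
  · have h1 : drF P L t y R U = 1 := by unfold drF; rw [if_pos h]
    rw [h1]
    simp only [mul_one]
    obtain ⟨hyU, hlt⟩ := h
    have h2 : P.κ * P.th t / P.γ0 < ((HH L R U y).card : ℝ) := by
      rw [div_lt_iff₀ P.γ0_pos]
      have h3 := mul_lt_mul_of_pos_right hlt (P.th_pos t)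
      have h4 := P.ga_mul t
      calc P.κ * P.th t < P.ga t * ((HH L R U y).card : ℝ) * P.th t := h3
        _ = ((HH L R U y).card : ℝ) * (P.ga t * P.th t) := by ring
        _ = ((HH L R U y).card : ℝ) * P.γ0 := by rw [h4]
    have h5 := HH_card_le (L := L) (R := R) hyU
    linarith
  · have h1 : drF P L t y R U = 0 := by unfold drF; rw [if_neg h]
    rw [h1]
    simp

theorem alg_aux1 {θ : ℝ} (hθ : θ ≠ 0) (k c D : ℝ) :
    (1 - k) ^ 2 * c * D = c * (D / θ ^ 2) * (θ * (1 - k)) ^ 2 := by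
  field_simp

theorem alg_aux2 {θ κ : ℝ} (hθ : θ ≠ 0) (hκ : κ ≠ 0) (g D : ℝ) :
    2 * g / κ * (D / θ ^ 2) * θ = D * (2 * g / (κ * θ)) := by
  field_simp

theorem alg_aux3 {θ κ g : ℝ} (hθ : θ ≠ 0) (hκ : κ ≠ 0) (hg : g ≠ 0) (D : ℝ) :
    D = (κ * θ / g) / 2 * D * (2 * g / (κ * θ)) := by
  field_simp

theorem sum_drF_le (hlin : Lin L) (htri : TriFree L) {y : V}
    (hX : 2 ≤ P.κ * P.th P.T / P.γ0) :
    ∑ t ∈ Finset.range P.T, Ex P L t (drF P L t y) / P.th t ≤
      2 * P.γ0 / P.κ * ((1 + 2 * P.ξ) ^ P.T *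
        ((P.T : ℝ) * (2 * P.γ0 * ∑ l ∈ L.filter (fun l => y ∈ l), (l.card : ℝ) ^ 2))) := by
  set Ls := L.filter (fun l => y ∈ l) with hLs
  obtain ⟨S2, hS2⟩ : ∃ S2 : ℝ, S2 = ∑ l ∈ Ls, (l.card : ℝ) ^ 2 := ⟨_, rfl⟩
  rw [← hS2]
  set x : ℕ → ℝ := fun t => (∑ l ∈ Ls, ∑ a ∈ l.erase y, Ex P L t (indT l {y, a})) / P.th t ^ 2
    with hx
  set e : ℕ → ℝ := fun t => (∑ l ∈ Ls, ∑ a ∈ l.erase y,
    Ex P L t (indT l {y, a} * drF P L t y)) / P.th t ^ 2 with he
  have hthp : ∀ t, 0 < P.th t ^ 2 := fun t => pow_pos (P.th_pos t) 2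
  have hg := P.γ0_pos
  have hkp := P.κ_pos
  have hmulnn : ∀ t (l : Finset V) (a : V) (R U : Finset V),
      0 ≤ (indT l {y, a} * drF P L t y) R U := by
    intro t l a R U
    exact mul_nonneg (indT_nonneg _ _ _ _) (drF_nonneg P t y R U)
  have hS2nn : 0 ≤ S2 := by
    rw [hS2]
    exact Finset.sum_nonneg (fun l _ => sq_nonneg _)
  have hrec : ∀ t < P.T, x (t+1) ≤ (1 + 2 * P.ξ) * (x t - e t) + 2 * P.γ0 * S2 := by
    intro t ht
    simp only [hx, he]
    rw [← sub_div, ← Finset.sum_sub_distrib, div_le_iff₀ (hthp (t+1))]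
    have h1 : ∑ l ∈ Ls, ∑ a ∈ l.erase y, Ex P L (t+1) (indT l {y, a}) ≤
        ∑ l ∈ Ls, ∑ a ∈ l.erase y, ((1 - P.κ) ^ 2 * (1 + 2 * P.ξ) *
          (Ex P L t (indT l {y, a}) - Ex P L t (indT l {y, a} * drF P L t y)) +
          P.ga t * ((l.card : ℝ) * P.th t ^ 3)) := by
      apply Finset.sum_le_sum
      intro l hl
      rw [hLs, Finset.mem_filter] at hl
      apply Finset.sum_le_sum
      intro a ha
      rw [Finset.mem_erase] at ha
      exact Ex_indT_succ P hlin htri hl.1 (by omega) (Ne.symm ha.1) hl.2 ha.2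
    refine h1.trans ?_
    have h2 : ∑ l ∈ Ls, ∑ a ∈ l.erase y, ((1 - P.κ) ^ 2 * (1 + 2 * P.ξ) *
          (Ex P L t (indT l {y, a}) - Ex P L t (indT l {y, a} * drF P L t y)) +
          P.ga t * ((l.card : ℝ) * P.th t ^ 3)) =
        (1 - P.κ) ^ 2 * (1 + 2 * P.ξ) * ∑ l ∈ Ls, (∑ a ∈ l.erase y,
          Ex P L t (indT l {y, a}) - ∑ a ∈ l.erase y, Ex P L t (indT l {y, a} * drF P L t y)) +
        ∑ l ∈ Ls, ((l.erase y).card : ℝ) * (P.ga t * ((l.card : ℝ) * P.th t ^ 3)) := by
      rw [Finset.mul_sum, ← Finset.sum_add_distrib]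
      apply Finset.sum_congr rfl
      intro l _
      rw [Finset.sum_add_distrib, ← Finset.mul_sum, Finset.sum_sub_distrib, Finset.sum_const,
        nsmul_eq_mul]
    rw [h2]
    have h3 : ∑ l ∈ Ls, ((l.erase y).card : ℝ) * (P.ga t * ((l.card : ℝ) * P.th t ^ 3)) ≤
        P.γ0 * P.th t ^ 2 * S2 := by
      rw [hS2, Finset.mul_sum]
      apply Finset.sum_le_sum
      intro l _
      have h4 : ((l.erase y).card : ℝ) ≤ (l.card : ℝ) := by
        exact_mod_cast Finset.card_le_card (Finset.erase_subset _ _)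
      have h5 : P.ga t * ((l.card : ℝ) * P.th t ^ 3) = P.γ0 * P.th t ^ 2 * (l.card : ℝ) := by
        rw [← P.ga_mul t]; ring
      rw [h5]
      have h6 : 0 ≤ P.γ0 * P.th t ^ 2 * (l.card : ℝ) := by positivity
      calc ((l.erase y).card : ℝ) * (P.γ0 * P.th t ^ 2 * (l.card : ℝ))
          ≤ (l.card : ℝ) * (P.γ0 * P.th t ^ 2 * (l.card : ℝ)) :=
            mul_le_mul_of_nonneg_right h4 h6
        _ = P.γ0 * P.th t ^ 2 * (l.card : ℝ) ^ 2 := by ring
    have h7 : (1 - P.κ) ^ 2 * (1 + 2 * P.ξ) * ∑ l ∈ Ls, (∑ a ∈ l.erase y,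
          Ex P L t (indT l {y, a}) - ∑ a ∈ l.erase y, Ex P L t (indT l {y, a} * drF P L t y)) =
        (1 + 2 * P.ξ) * ((∑ l ∈ Ls, (∑ a ∈ l.erase y,
          Ex P L t (indT l {y, a}) - ∑ a ∈ l.erase y, Ex P L t (indT l {y, a} * drF P L t y)))
          / P.th t ^ 2) * P.th (t+1) ^ 2 := by
      rw [P.th_succ]
      exact alg_aux1 (P.th_pos t).ne' _ _ _
    have h8 : P.γ0 * P.th t ^ 2 * S2 ≤ 2 * P.γ0 * S2 * P.th (t+1) ^ 2 := by
      rw [P.th_succ, mul_pow]
      have h9 := P.half2
      have h10 : 0 ≤ P.γ0 * S2 * P.th t ^ 2 := mul_nonneg (mul_nonneg hg.le hS2nn) (hthp t).le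
      nlinarith
    rw [add_mul, ← h7]
    linarith
  have htel := telescope (c := 2 * P.ξ) (by have := P.ξ_pos; linarith) x e
    (fun _ => 2 * P.γ0 * S2) P.T
    (fun t ht => div_nonneg (Finset.sum_nonneg (fun l _ => Finset.sum_nonneg (fun a _ =>
      Ex_nonneg P (by omega) (hmulnn t l a)))) (hthp t).le)
    (fun _ _ => mul_nonneg (by linarith) hS2nn) hrec
  have hxT : 0 ≤ x P.T := div_nonneg
    (Finset.sum_nonneg (fun l _ => Finset.sum_nonneg (fun a _ =>
      Ex_nonneg P le_rfl (fun R U => indT_nonneg _ _ R U)))) (hthp _).le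
  have hx0 : x 0 = 0 := by
    simp only [hx]
    rw [div_eq_zero_iff]
    left
    apply Finset.sum_eq_zero
    intro l _
    apply Finset.sum_eq_zero
    intro a _
    rw [Ex_zero]
    unfold indT
    simp
  have hsum : ∑ t ∈ Finset.range P.T, e t ≤
      (1 + 2 * P.ξ) ^ P.T * ((P.T : ℝ) * (2 * P.γ0 * S2)) := by
    rw [hx0, zero_add, Finset.sum_const, Finset.card_range, nsmul_eq_mul] at htel
    linarith
  have hterm : ∀ t ∈ Finset.range P.T, Ex P L t (drF P L t y) / P.th t ≤
      2 * P.γ0 / P.κ * e t := by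
    intro t ht
    rw [Finset.mem_range] at ht
    have hXt : 2 ≤ P.κ * P.th t / P.γ0 := by
      refine hX.trans ?_
      apply div_le_div_of_nonneg_right _ P.γ0_pos.le
      exact mul_le_mul_of_nonneg_left (P.th_le (by omega)) P.κ_pos.le
    have h4 : (P.κ * P.th t / P.γ0) / 2 * Ex P L t (drF P L t y) ≤
        ∑ l ∈ Ls, ∑ a ∈ l.erase y, Ex P L t (indT l {y, a} * drF P L t y) := by
      have h5 : ∑ l ∈ Ls, ∑ a ∈ l.erase y, Ex P L t (indT l {y, a} * drF P L t y) =
          Ex P L t (∑ l ∈ Ls, ∑ a ∈ l.erase y, indT l {y, a} * drF P L t y) := by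
        rw [map_sum]
        apply Finset.sum_congr rfl
        intro l _
        rw [map_sum]
      rw [h5, ← smul_eq_mul, ← map_smul]
      apply Ex_mono P (by omega)
      intro R U
      simp only [Pi.smul_apply, smul_eq_mul, Finset.sum_apply, Pi.mul_apply]
      exact drF_count P hXt R U
    simp only [he]
    rw [div_le_iff₀ (P.th_pos t)]
    have hth := P.th_pos t
    have h5 : 2 * P.γ0 / P.κ *
        ((∑ l ∈ Ls, ∑ a ∈ l.erase y, Ex P L t (indT l {y, a} * drF P L t y)) / P.th t ^ 2) *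
          P.th t =
        (∑ l ∈ Ls, ∑ a ∈ l.erase y, Ex P L t (indT l {y, a} * drF P L t y)) *
          (2 * P.γ0 / (P.κ * P.th t)) := alg_aux2 hth.ne' hkp.ne' _ _
    rw [h5]
    have h6 : 0 ≤ 2 * P.γ0 / (P.κ * P.th t) := by positivity
    have h7 := mul_le_mul_of_nonneg_right h4 h6
    refine le_trans (le_of_eq ?_) h7
    exact alg_aux3 hth.ne' hkp.ne' hg.ne' _
  refine (Finset.sum_le_sum hterm).trans ?_
  rw [← Finset.mul_sum]
  apply mul_le_mul_of_nonneg_left hsum
  positivity

theorem step_const {g κ ξ : ℝ} (c : ℝ) :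
    step L g κ ξ (fun _ _ => c) = fun _ _ => c := by
  funext R U
  unfold step
  simp only [cs_const, Finset.sum_const, Finset.card_univ, nsmul_eq_mul]
  ring

theorem Ex_const (t : ℕ) (c : ℝ) : Ex P L t (fun _ _ => c) = c := by
  induction t with
  | zero => rfl
  | succ t ih => rw [Ex_succ, step_const, ih]

theorem Ex_ind_ge (hlin : Lin L) (htri : TriFree L)
    (hX1 : 8 ≤ P.ξ * P.th P.T / P.γ0) (hX2 : 2 ≤ P.κ * P.th P.T / P.γ0) (y : V)
    (hy : 2 * P.γ0 / P.κ * ((1 + 2 * P.ξ) ^ P.T *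
        ((P.T : ℝ) * (2 * P.γ0 * ∑ l ∈ L.filter (fun l => y ∈ l), (l.card : ℝ) ^ 2))) +
      48 * (P.γ0 / P.ξ) ^ 3 * ((1 + 6 * P.ξ) ^ P.T *
        ∑ l ∈ L.filter (fun l => y ∈ l), (((l.erase y).powersetCard 3).card : ℝ)) ≤ 1 / 2)
    {t : ℕ} (ht : t ≤ P.T) : P.th t / 2 ≤ Ex P L t (ind {y}) := by
  rw [Ex_ind_eq P ht y]
  have h1 : ∑ i ∈ Finset.range t, Ex P L i (drp P L i y) / P.th i ≤
      ∑ i ∈ Finset.range P.T, Ex P L i (drp P L i y) / P.th i := by
    apply Finset.sum_le_sum_of_subset_of_nonneg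
    · intro i hi
      rw [Finset.mem_range] at hi ⊢
      omega
    · intro i hi _
      rw [Finset.mem_range] at hi
      exact div_nonneg (Ex_nonneg P (by omega) (fun R U => drp_nonneg P i y R U)) (P.th_pos i).le
  have h2 : ∑ i ∈ Finset.range P.T, Ex P L i (drp P L i y) / P.th i ≤
      ∑ i ∈ Finset.range P.T, Ex P L i (drF P L i y) / P.th i +
      ∑ l ∈ L.filter (fun l => y ∈ l), ∑ i ∈ Finset.range P.T,
        Ex P L i (drL P i l y) / P.th i := by
    rw [Finset.sum_comm, ← Finset.sum_add_distrib]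
    apply Finset.sum_le_sum
    intro i hi
    rw [Finset.mem_range] at hi
    rw [← Finset.sum_div, ← add_div]
    apply div_le_div_of_nonneg_right _ (P.th_pos i).le
    rw [← map_sum, ← map_add]
    apply Ex_mono P (by omega)
    intro R U
    simp only [Pi.add_apply, Finset.sum_apply]
    exact drp_le P i y R U
  have h3 := sum_drF_le P hlin htri (y := y) hX2
  have h4 : ∑ l ∈ L.filter (fun l => y ∈ l), ∑ i ∈ Finset.range P.T,
        Ex P L i (drL P i l y) / P.th i ≤
      48 * (P.γ0 / P.ξ) ^ 3 * ((1 + 6 * P.ξ) ^ P.T *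
        ∑ l ∈ L.filter (fun l => y ∈ l), (((l.erase y).powersetCard 3).card : ℝ)) := by
    rw [Finset.mul_sum, Finset.mul_sum]
    apply Finset.sum_le_sum
    intro l hl
    rw [Finset.mem_filter] at hl
    exact sum_drL_le P hlin htri hl.1 hl.2 hX1
  have h5 : ∑ i ∈ Finset.range t, Ex P L i (drp P L i y) / P.th i ≤ 1 / 2 := by linarith
  have := P.th_pos t
  nlinarith

theorem main_greedy (hlin : Lin L) (htri : TriFree L)
    (hX1 : 8 ≤ P.ξ * P.th P.T / P.γ0) (hX2 : 2 ≤ P.κ * P.th P.T / P.γ0)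
    (hy : ∀ y : V, 2 * P.γ0 / P.κ * ((1 + 2 * P.ξ) ^ P.T *
        ((P.T : ℝ) * (2 * P.γ0 * ∑ l ∈ L.filter (fun l => y ∈ l), (l.card : ℝ) ^ 2))) +
      48 * (P.γ0 / P.ξ) ^ 3 * ((1 + 6 * P.ξ) ^ P.T *
        ∑ l ∈ L.filter (fun l => y ∈ l), (((l.erase y).powersetCard 3).card : ℝ)) ≤ 1 / 2) :
    ∃ R : Finset V, (∀ l ∈ L, (l ∩ R).card ≤ 2) ∧
      (P.T : ℝ) * ((Fintype.card V : ℝ) * P.γ0 / 2) ≤ (R.card : ℝ) := by
  -- growth of the chosen set
  have hgrow : ∀ t ≤ P.T, (t : ℝ) * ((Fintype.card V : ℝ) * P.γ0 / 2) ≤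
      Ex P L t (fun R _ => (R.card : ℝ)) := by
    intro t
    induction t with
    | zero =>
      intro _
      rw [Ex_zero]
      simp
    | succ t ih =>
      intro ht
      have ih' := ih (by omega)
      have h1 : Ex P L t ((fun R _ => (R.card : ℝ)) +
          P.ga t • ∑ y : V, (ind {y} - drp P L t y)) ≤
          Ex P L (t+1) (fun R _ => (R.card : ℝ)) := by
        rw [Ex_succ]
        apply Ex_mono_valid P (by omega)
        intro R U hv
        simp only [Pi.add_apply, Pi.smul_apply, smul_eq_mul, Finset.sum_apply, Pi.sub_apply]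
        unfold step
        simp only [cs_const]
        have h2 : ∀ a : V, P.ga t * (((if a ∈ good L (P.ga t) P.κ P.ξ R U then insert a R
            else R).card : ℕ) : ℝ) =
            P.ga t * (R.card : ℝ) + P.ga t * (ind {a} R U - drp P L t a R U) := by
          intro a
          split_ifs with ha
          · have haU := good_subset L _ _ _ R U ha
            rw [Finset.card_insert_of_notMem (hv.2 a haU).1]
            unfold ind drp
            simp only [Finset.singleton_subset_iff, haU, ha, if_true, not_true, and_false,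
              if_false]
            push_cast
            ring
          · unfold ind drp
            by_cases haU : a ∈ U
            · simp [haU, ha]
            · simp [haU]
        simp only [h2]
        rw [Finset.mul_sum, Finset.sum_add_distrib, Finset.sum_const, Finset.card_univ,
          nsmul_eq_mul]
        apply le_of_eq
        ring
      rw [map_add, map_smul, map_sum, smul_eq_mul] at h1
      have h3 : ∀ y : V, P.th t / 2 ≤ Ex P L t (ind {y} - drp P L t y) := by
        intro y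
        have h4 := Ex_ind_ge P hlin htri hX1 hX2 y (hy y) ht
        rw [Ex_ind_succ P t y, ← map_sub, P.th_succ] at h4
        have h5 := P.ok_pos
        have h6 : (1 - P.κ) * (P.th t / 2) ≤ (1 - P.κ) * Ex P L t (ind {y} - drp P L t y) := by
          linarith
        exact le_of_mul_le_mul_left h6 h5
      have h7 : (Fintype.card V : ℝ) * (P.th t / 2) ≤
          ∑ y : V, Ex P L t (ind {y} - drp P L t y) := by
        have := Finset.sum_le_sum (fun y (_ : y ∈ (Finset.univ : Finset V)) => h3 y)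
        rwa [Finset.sum_const, Finset.card_univ, nsmul_eq_mul] at this
      have h8 := mul_le_mul_of_nonneg_left h7 (P.ga_pos t).le
      have h9 : P.ga t * ((Fintype.card V : ℝ) * (P.th t / 2)) =
          (Fintype.card V : ℝ) * P.γ0 / 2 := by
        rw [← P.ga_mul t]; ring
      rw [h9] at h8
      push_cast
      linarith
  -- the largest valid set
  obtain ⟨R, hR, hmax⟩ := Finset.exists_max_image
    (Finset.univ.filter (fun R : Finset V => ∀ l ∈ L, (l ∩ R).card ≤ 2)) Finset.card
    ⟨∅, by simp⟩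
  rw [Finset.mem_filter] at hR
  refine ⟨R, hR.2, (hgrow P.T le_rfl).trans ?_⟩
  have h1 : Ex P L P.T (fun R _ => (R.card : ℝ)) ≤ Ex P L P.T (fun _ _ => (R.card : ℝ)) := by
    apply Ex_mono_valid P le_rfl
    intro R' U hv
    exact_mod_cast hmax R' (Finset.mem_filter.mpr ⟨Finset.mem_univ _, hv.1⟩)
  rwa [Ex_const] at h1

theorem one_sub_ge_exp {κ : ℝ} (h0 : 0 ≤ κ) (h1 : κ ≤ 1/2) : Real.exp (-(2 * κ)) ≤ 1 - κ := by
  rw [Real.exp_neg, inv_le_comm₀ (Real.exp_pos _) (by linarith)]
  have h2 := Real.add_one_le_exp (2 * κ)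
  refine le_trans ?_ h2
  rw [inv_le_iff_one_le_mul₀ (by linarith)]
  nlinarith

theorem greedy_exists (C1 C3 : ℝ) (hC1 : 1 ≤ C1) (hC3 : 1 ≤ C3) :
    ∃ c : ℝ, 0 < c ∧ ∃ M0 : ℝ, 1 ≤ M0 ∧ ∀ (V : Type) [Fintype V] [DecidableEq V]
      (L : Finset (Finset V)) (M : ℝ), M0 ≤ M → Lin L → TriFree L →
      (∀ y : V, ∑ l ∈ L.filter (fun l => y ∈ l), (l.card : ℝ) ^ 2 ≤ C1 * M ^ 2 * Real.log M) →
      (∀ y : V, ∑ l ∈ L.filter (fun l => y ∈ l), (l.card : ℝ) ^ 3 ≤ C3 * M ^ 3) →
      ∃ R : Finset V, (∀ l ∈ L, (l ∩ R).card ≤ 2) ∧ c * (Fintype.card V : ℝ) / M ≤ (R.card : ℝ) := by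
  obtain ⟨B, hB⟩ : ∃ B : ℝ, B = 32 * C1 := ⟨_, rfl⟩
  obtain ⟨D, hD⟩ : ∃ D : ℝ, D = 4 * C3 := ⟨_, rfl⟩
  have hB32 : 32 ≤ B := by rw [hB]; linarith
  have hD4 : 4 ≤ D := by rw [hD]; linarith
  obtain ⟨s, hs⟩ : ∃ s : ℝ, s = 1 / (12 * D * B) := ⟨_, rfl⟩
  have hs0 : 0 < s := by rw [hs]; positivity
  have hsD : 12 * D * s = 1 / B := by rw [hs]; field_simp
  have hsD1 : 12 * D * s ≤ 1 := by
    rw [hsD, div_le_one (by linarith)]; linarith
  have hsB : 4 * B * s ^ 2 ≤ 1 := by
    have h1 : 4 * B * s ^ 2 = (12 * B * D * s) * s / (3 * D) := by field_simp; ring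
    have h2 : 12 * B * D * s = 1 := by rw [hs]; field_simp
    rw [h1, h2, one_mul, div_le_one (by linarith)]
    nlinarith
  have hs1 : s ≤ 1 := by nlinarith
  refine ⟨s / 2, by positivity, max 64 (max ((2 / (B * s)) ^ 2) (Real.exp 1)), ?_, ?_⟩
  · exact le_max_of_le_left (by norm_num)
  intro V _ _ L M hM hlin htri h2 h3
  have hM64 : 64 ≤ M := (le_max_left _ _).trans hM
  have hMs : (2 / (B * s)) ^ 2 ≤ M := ((le_max_left _ _).trans (le_max_right _ _)).trans hM
  have hMe : Real.exp 1 ≤ M := ((le_max_right _ _).trans (le_max_right _ _)).trans hM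
  have hM0 : 0 < M := by linarith
  have hlog : 1 ≤ Real.log M := by
    rw [Real.le_log_iff_exp_le hM0]; exact hMe
  -- square root of M
  obtain ⟨r, hr⟩ : ∃ r : ℝ, r = Real.sqrt M := ⟨_, rfl⟩
  have hr0 : 0 < r := by rw [hr]; exact Real.sqrt_pos.mpr hM0
  have hrr : r * r = M := by rw [hr]; exact Real.mul_self_sqrt hM0.le
  have hr8 : 8 ≤ r := by
    rw [hr]
    apply Real.le_sqrt_of_sq_le
    norm_num
    exact hM64
  have hr2 : 2 / (B * s) ≤ r := by
    rw [hr]
    exact Real.le_sqrt_of_sq_le hMs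
  -- number of steps
  obtain ⟨T, hT⟩ := exists_nat_ge (max (Fintype.card V : ℝ) (8 * B * s ^ 2 * Real.log M + 1))
  have hTN : (Fintype.card V : ℝ) ≤ T := (le_max_left _ _).trans hT
  have hTk : 8 * B * s ^ 2 * Real.log M + 1 ≤ T := (le_max_right _ _).trans hT
  have hT0 : (0:ℝ) < T := by
    have : 0 ≤ 8 * B * s ^ 2 * Real.log M := by positivity
    linarith
  obtain ⟨κ, hκ⟩ : ∃ κ : ℝ, κ = B * s ^ 2 * Real.log M / T := ⟨_, rfl⟩
  have hκ0 : 0 < κ := by rw [hκ]; positivity
  have hκ8 : κ ≤ 1 / 8 := by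
    rw [hκ, div_le_iff₀ hT0]
    linarith
  have hthT : 1 / r ≤ (1 - κ) ^ T := by
    have h4 := one_sub_ge_exp hκ0.le (by linarith)
    have h5 : Real.exp (-(2 * κ)) ^ T ≤ (1 - κ) ^ T := pow_le_pow_left₀ (Real.exp_pos _).le h4 T
    refine le_trans ?_ h5
    rw [← Real.exp_nat_mul]
    have h6 : (T:ℝ) * -(2 * κ) = -(2 * B * s ^ 2) * Real.log M := by
      rw [hκ]; field_simp
    rw [h6]
    have h7 : -(1/2) * Real.log M ≤ -(2 * B * s ^ 2) * Real.log M := by
      apply mul_le_mul_of_nonneg_right _ (by linarith)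
      linarith
    refine le_trans (le_of_eq ?_) (Real.exp_le_exp.mpr h7)
    have h8 : Real.log M = 2 * Real.log r := by
      rw [← hrr, Real.log_mul hr0.ne' hr0.ne']; ring
    rw [h8]
    have h9 : -(1/2:ℝ) * (2 * Real.log r) = - Real.log r := by ring
    rw [h9, Real.exp_neg, Real.exp_log hr0, one_div]
  -- parameters
  obtain ⟨P, hPT, hPγ, hPκ, hPξ⟩ : ∃ P : Params V, P.T = T ∧ P.γ0 = s / (M * T) ∧ P.κ = κ ∧
      P.ξ = D * s / T := ⟨
    { T := T
      γ0 := s / (M * T)
      κ := κ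
      ξ := D * s / T
      γ0_pos := by positivity
      κ_pos := hκ0
      ξ_pos := by positivity
      κ_half := by
        have h4 := one_add_mul_le_pow (show (-2:ℝ) ≤ -κ by linarith) 4
        have h5 : (1 + -κ) ^ 4 = (1 - κ) ^ 4 := by ring
        rw [h5] at h4
        push_cast at h4
        linarith
      κ_lt := by linarith
      hN := by
        refine le_trans ?_ hthT
        have h4 : (Fintype.card V : ℝ) * (s / (M * T)) = ((Fintype.card V : ℝ) / T) * (s / M) := by
          field_simp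
        rw [h4]
        have h5 : (Fintype.card V : ℝ) / T ≤ 1 := by
          rw [div_le_one hT0]; exact hTN
        have h6 : s / M ≤ 1 / r := by
          rw [div_le_div_iff₀ hM0 hr0, ← hrr]
          nlinarith
        have h7 : 0 ≤ s / M := by positivity
        nlinarith }, rfl, rfl, rfl, rfl⟩
  have hth : 1 / r ≤ P.th P.T := by
    unfold Params.th
    rw [hPT, hPκ]
    exact hthT
  have hpow : ∀ a : ℝ, 0 ≤ a → a ≤ 6 → (1 + a * P.ξ) ^ P.T ≤ 2 := by
    intro a ha0 ha6
    rw [hPT, hPξ]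
    have h4 : 1 + a * (D * s / T) ≤ Real.exp (a * (D * s / T)) := by
      have := Real.add_one_le_exp (a * (D * s / T))
      linarith
    have h5 : (1 + a * (D * s / T)) ^ T ≤ Real.exp (a * (D * s / T)) ^ T :=
      pow_le_pow_left₀ (by positivity) h4 T
    refine h5.trans ?_
    rw [← Real.exp_nat_mul]
    have h6 : (T:ℝ) * (a * (D * s / T)) = a * D * s := by field_simp
    rw [h6]
    have h7 : a * D * s ≤ 1 / 2 := by
      have : a * (D * s) ≤ 6 * (D * s) := mul_le_mul_of_nonneg_right ha6 (by positivity)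
      nlinarith
    have h8 : Real.exp (a * D * s) ≤ Real.exp (1/2) := Real.exp_le_exp.mpr h7
    refine h8.trans ?_
    have h9 : Real.exp (1/2) ^ 2 = Real.exp 1 := by
      rw [← Real.exp_nat_mul]; norm_num
    have h10 := Real.exp_one_lt_d9
    have h11 := Real.exp_pos (1/2)
    nlinarith
  have hX1 : 8 ≤ P.ξ * P.th P.T / P.γ0 := by
    rw [hPξ, hPγ]
    have h4 : D * s / T * P.th P.T / (s / (M * T)) = D * M * P.th P.T := by
      field_simp
    rw [h4]
    have h5 : D * M * (1 / r) ≤ D * M * P.th P.T :=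
      mul_le_mul_of_nonneg_left hth (by positivity)
    refine le_trans ?_ h5
    rw [← hrr]
    have h6 : D * (r * r) * (1 / r) = D * r := by field_simp
    rw [h6]
    nlinarith
  have hX2 : 2 ≤ P.κ * P.th P.T / P.γ0 := by
    rw [hPκ, hPγ, hκ]
    have h4 : B * s ^ 2 * Real.log M / T * P.th P.T / (s / (M * T)) =
        B * s * Real.log M * (M * P.th P.T) := by
      field_simp
    rw [h4]
    have h5 : r ≤ M * P.th P.T := by
      have h6 : M * (1 / r) ≤ M * P.th P.T := mul_le_mul_of_nonneg_left hth hM0.le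
      refine le_trans (le_of_eq ?_) h6
      rw [← hrr]; field_simp
    have h7 : 2 ≤ B * s * r := by
      rw [div_le_iff₀ (by positivity)] at hr2
      linarith
    calc (2:ℝ) ≤ B * s * r := h7
      _ ≤ B * s * 1 * r := by rw [mul_one]
      _ ≤ B * s * Real.log M * r := by
          apply mul_le_mul_of_nonneg_right _ hr0.le
          exact mul_le_mul_of_nonneg_left hlog (by positivity)
      _ ≤ B * s * Real.log M * (M * P.th P.T) :=
          mul_le_mul_of_nonneg_left h5 (by positivity)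
  obtain ⟨R, hR1, hR2⟩ := main_greedy P hlin htri hX1 hX2 (by
    intro y
    have hS2 := h2 y
    have hS3 := h3 y
    have hS2' : 0 ≤ ∑ l ∈ L.filter (fun l => y ∈ l), (l.card : ℝ) ^ 2 :=
      Finset.sum_nonneg (fun _ _ => by positivity)
    have e1 : 2 * P.γ0 / P.κ * ((1 + 2 * P.ξ) ^ P.T *
        ((P.T : ℝ) * (2 * P.γ0 * ∑ l ∈ L.filter (fun l => y ∈ l), (l.card : ℝ) ^ 2))) ≤ 1 / 4 := by
      have h4 := hpow 2 (by norm_num) (by norm_num)
      have h5 : 0 ≤ 2 * P.γ0 / P.κ := by
        have := P.γ0_pos; have := P.κ_pos; positivity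
      have h6 : 0 ≤ (P.T : ℝ) * (2 * P.γ0 * (C1 * M ^ 2 * Real.log M)) := by
        have := P.γ0_pos
        positivity
      have h7 : (1 + 2 * P.ξ) ^ P.T *
          ((P.T : ℝ) * (2 * P.γ0 * ∑ l ∈ L.filter (fun l => y ∈ l), (l.card : ℝ) ^ 2)) ≤
          2 * ((P.T : ℝ) * (2 * P.γ0 * (C1 * M ^ 2 * Real.log M))) := by
        have hg0 : 0 ≤ 2 * P.γ0 := by have := P.γ0_pos; linarith
        apply mul_le_mul h4 _ _ (by norm_num)
        · apply mul_le_mul_of_nonneg_left _ (Nat.cast_nonneg _)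
          exact mul_le_mul_of_nonneg_left hS2 hg0
        · exact mul_nonneg (Nat.cast_nonneg _) (mul_nonneg hg0 hS2')
      refine (mul_le_mul_of_nonneg_left h7 h5).trans (le_of_eq ?_)
      rw [hPT, hPγ, hPκ, hκ, hB]
      have : Real.log M ≠ 0 := by linarith
      field_simp
      norm_num
    have e2 : 48 * (P.γ0 / P.ξ) ^ 3 * ((1 + 6 * P.ξ) ^ P.T *
        ∑ l ∈ L.filter (fun l => y ∈ l), (((l.erase y).powersetCard 3).card : ℝ)) ≤ 1 / 4 := by
      have h4 := hpow 6 (by norm_num) le_rfl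
      have h5 : ∑ l ∈ L.filter (fun l => y ∈ l), (((l.erase y).powersetCard 3).card : ℝ) ≤
          C3 * M ^ 3 / 6 := by
        have h6 : ∑ l ∈ L.filter (fun l => y ∈ l), (((l.erase y).powersetCard 3).card : ℝ) ≤
            ∑ l ∈ L.filter (fun l => y ∈ l), (l.card : ℝ) ^ 3 / 6 := by
          apply Finset.sum_le_sum
          intro l _
          rw [Finset.card_powersetCard]
          have h7 := Nat.choose_le_pow_div (α := ℝ) 3 (l.erase y).card
          have h8 : ((Nat.factorial 3 : ℕ) : ℝ) = 6 := by norm_num [Nat.factorial]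
          rw [h8] at h7
          refine h7.trans ?_
          apply div_le_div_of_nonneg_right _ (by norm_num)
          apply pow_le_pow_left₀ (Nat.cast_nonneg _)
          exact_mod_cast Finset.card_le_card (Finset.erase_subset _ _)
        refine h6.trans ?_
        rw [← Finset.sum_div]
        linarith
      have h6 : 0 ≤ 48 * (P.γ0 / P.ξ) ^ 3 := by
        have := P.γ0_pos; have := P.ξ_pos; positivity
      have h7 : (1 + 6 * P.ξ) ^ P.T *
          ∑ l ∈ L.filter (fun l => y ∈ l), (((l.erase y).powersetCard 3).card : ℝ) ≤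
          2 * (C3 * M ^ 3 / 6) :=
        mul_le_mul h4 h5 (Finset.sum_nonneg (fun _ _ => Nat.cast_nonneg _)) (by norm_num)
      refine (mul_le_mul_of_nonneg_left h7 h6).trans ?_
      rw [hPγ, hPξ]
      have h8 : 48 * (s / (M * T) / (D * s / T)) ^ 3 * (2 * (C3 * M ^ 3 / 6)) =
          16 * C3 / D ^ 3 := by
        field_simp
        ring
      rw [h8, hD, div_le_iff₀ (by positivity)]
      have h9 : C3 ≤ C3 ^ 3 := le_self_pow₀ hC3 (by norm_num)
      have h10 : 1 / 4 * (4 * C3) ^ 3 = 16 * C3 ^ 3 := by ring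
      rw [h10]
      linarith
    linarith)
  refine ⟨R, hR1, le_trans (le_of_eq ?_) hR2⟩
  rw [hPT, hPγ]
  field_simp

end Pool.Agent.H60.Greedy
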