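import Pool.Agent.H60.Greedy

set_option autoImplicit false
set_option linter.unusedSectionVars false
set_option maxHeartbeats 1000000

noncomputable section

open Finset Classical

namespace Pool.Agent.H60.Greedy

variable {V : Type*} [DecidableEq V]

theorem cs_sum {ι : Type*} (G : Finset V) (p : V → ℝ) (T : Finset ι) (f : ι → Finset V → ℝ) :
    cs G p (fun W => ∑ t ∈ T, f t W) = ∑ t ∈ T, cs G p (f t) := by
  induction T using Finset.induction_on with
  | empty => simpa using cs_const G p 0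
  | insert a s ha ih =>
    rw [Finset.sum_insert ha, ← ih, ← cs_add]
    congr 1
    funext W
    rw [Finset.sum_insert ha]

theorem cs_count {ι : Type*} (G : Finset V) (p : ℝ) (T : Finset ι) (pts : ι → Finset V) (k : ℕ)
    (hT : ∀ t ∈ T, pts t ⊆ G ∧ (pts t).card = k) :
    cs G (fun _ => p) (fun W => ((T.filter (fun t => pts t ⊆ W)).card : ℝ)) = T.card * p ^ k := by
  have h : (fun W : Finset V => ((T.filter (fun t => pts t ⊆ W)).card : ℝ)) =
      (fun W => ∑ t ∈ T, (fun t W => if pts t ⊆ W then (1:ℝ) else 0) t W) := by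
    funext W
    beta_reduce
    rw [Finset.card_filter]
    push_cast
    rfl
  rw [h, cs_sum]
  have h2 : ∀ t ∈ T, cs G (fun _ => p) (fun W => if pts t ⊆ W then (1:ℝ) else 0) = p ^ k := by
    intro t ht
    rw [cs_ind, if_pos (hT t ht).1, Finset.prod_const, (hT t ht).2]
  rw [Finset.sum_congr rfl h2]
  simp

theorem cs_exists (G : Finset V) (p : V → ℝ) (h0 : ∀ y ∈ G, 0 ≤ p y) (h1 : ∀ y ∈ G, p y ≤ 1)
    (f : Finset V → ℝ) : ∃ W, W ⊆ G ∧ cs G p f ≤ f W := by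
  obtain ⟨W, hW, hmax⟩ := Finset.exists_max_image G.powerset f ⟨∅, by simp⟩
  refine ⟨W, Finset.mem_powerset.mp hW, ?_⟩
  calc cs G p f ≤ cs G p (fun _ => f W) :=
        cs_mono G p _ _ h0 h1 (fun W' hW' _ => hmax W' (Finset.mem_powerset.mpr hW'))
    _ = f W := cs_const _ _ _


/-- sum of squares of the lengths of the lines through `y` -/
def S2 (L : Finset (Finset V)) (y : V) : ℝ := ∑ l ∈ L.filter (fun l => y ∈ l), (l.card : ℝ) ^ 2

theorem S2_nonneg (L : Finset (Finset V)) (y : V) : 0 ≤ S2 L y :=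
  Finset.sum_nonneg (fun _ _ => by positivity)

theorem sum_inter_le {L : Finset (Finset V)} (hlin : Lin L) {y : V} {l2 : Finset V} (hy : y ∉ l2) :
    ∑ l3 ∈ L.filter (fun l => y ∈ l), ((l2 ∩ l3).card : ℝ) ≤ (l2.card : ℝ) := by
  have h : ((L.filter (fun l => y ∈ l)).biUnion (fun l3 => l2 ∩ l3)).card =
      ∑ l3 ∈ L.filter (fun l => y ∈ l), (l2 ∩ l3).card := by
    apply Finset.card_biUnion
    intro l hl l' hl' hne
    show Disjoint (l2 ∩ l) (l2 ∩ l')
    rw [Finset.disjoint_left]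
    intro x hx hx'
    rw [Finset.mem_coe, Finset.mem_filter] at hl hl'
    rw [Finset.mem_inter] at hx hx'
    have hxy : x ≠ y := fun e => hy (e ▸ hx.1)
    exact hne (hlin l hl.1 l' hl'.1 x y hxy hx.2 hl.2 hx'.2 hl'.2)
  have h2 : ((L.filter (fun l => y ∈ l)).biUnion (fun l3 => l2 ∩ l3)) ⊆ l2 := by
    intro x hx
    rw [Finset.mem_biUnion] at hx
    obtain ⟨l, _, hx⟩ := hx
    exact (Finset.mem_inter.mp hx).1
  have h3 := Finset.card_le_card h2
  rw [h] at h3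
  exact_mod_cast h3

/-- The weighted number of pairs of lines through `u` and `y`. -/
def Gam (L : Finset (Finset V)) (y u : V) : ℝ :=
  ∑ l2 ∈ L.filter (fun l => u ∈ l ∧ y ∉ l), ∑ l3 ∈ L.filter (fun l => y ∈ l ∧ u ∉ l),
    ((l2 ∩ l3).card : ℝ) * ((l2.card : ℝ) * (l3.card : ℝ))

theorem abd_aux {a b d τ lam : ℝ} (ha0 : 0 ≤ a) (ha1 : a ≤ 1) (hb : 0 ≤ b) (hd : 0 ≤ d)
    (hτ : 0 < τ) (hlam : 0 < lam) :
    a * (b * d) ≤ τ * (a * d) + lam / (2 * τ) * (b ^ 2 * d ^ 2) + 1 / (2 * lam) * (a * b) := by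
  rcases le_or_gt b τ with h | h
  · have h1 : a * (b * d) ≤ τ * (a * d) := by
      have : 0 ≤ (τ - b) * (a * d) := mul_nonneg (by linarith) (mul_nonneg ha0 hd)
      nlinarith
    have h2 : 0 ≤ lam / (2 * τ) * (b ^ 2 * d ^ 2) := by positivity
    have h3 : 0 ≤ 1 / (2 * lam) * (a * b) := by positivity
    linarith
  · have h1 : 0 ≤ τ * (a * d) := by positivity
    have h2 : d ≤ lam / 2 * d ^ 2 + 1 / (2 * lam) := by
      have h3 : lam / 2 * d ^ 2 + 1 / (2 * lam) - d = (lam * d - 1) ^ 2 / (2 * lam) := by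
        field_simp; ring
      have h4 : 0 ≤ (lam * d - 1) ^ 2 / (2 * lam) := by positivity
      linarith
    have h5 : a * (b * d) ≤ a * b * (lam / 2 * d ^ 2 + 1 / (2 * lam)) := by
      have := mul_le_mul_of_nonneg_left h2 (mul_nonneg ha0 hb)
      linarith
    have h6 : b ≤ b ^ 2 / τ := by
      rw [le_div_iff₀ hτ]
      nlinarith
    have h7 : a * b * (lam / 2 * d ^ 2) ≤ lam / (2 * τ) * (b ^ 2 * d ^ 2) := by
      have h8 : lam / (2 * τ) * (b ^ 2 * d ^ 2) = (b ^ 2 / τ) * (lam / 2 * d ^ 2) := by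
        field_simp
      rw [h8]
      apply mul_le_mul_of_nonneg_right _ (by positivity)
      calc a * b ≤ 1 * b := mul_le_mul_of_nonneg_right ha1 hb
        _ = b := one_mul b
        _ ≤ _ := h6
    have h9 : a * b * (1 / (2 * lam)) = 1 / (2 * lam) * (a * b) := by ring
    nlinarith

theorem inter_card_le_one {L : Finset (Finset V)} (hlin : Lin L) {l l' : Finset V} (hl : l ∈ L)
    (hl' : l' ∈ L) (hne : l ≠ l') : (l ∩ l').card ≤ 1 := by
  rw [Finset.card_le_one]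
  intro x hx y hy
  rw [Finset.mem_inter] at hx hy
  by_contra hxy
  exact hne (hlin l hl l' hl' x y hxy hx.1 hy.1 hx.2 hy.2)

theorem Gam_le {L : Finset (Finset V)} (hlin : Lin L) (y u : V) {τ lam : ℝ}
    (hτ : 0 < τ) (hlam : 0 < lam) :
    Gam L y u ≤ τ * S2 L y + lam / (2 * τ) * (S2 L u * S2 L y) + 1 / (2 * lam) * S2 L u := by
  have h1 : Gam L y u ≤ ∑ l2 ∈ L.filter (fun l => u ∈ l ∧ y ∉ l),
      ∑ l3 ∈ L.filter (fun l => y ∈ l ∧ u ∉ l),
      (τ * (((l2 ∩ l3).card : ℝ) * (l3.card : ℝ)) + lam / (2 * τ) * ((l2.card : ℝ) ^ 2 * (l3.card : ℝ) ^ 2)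
        + 1 / (2 * lam) * (((l2 ∩ l3).card : ℝ) * (l2.card : ℝ))) := by
    unfold Gam
    apply Finset.sum_le_sum
    intro l2 hl2
    apply Finset.sum_le_sum
    intro l3 hl3
    rw [Finset.mem_filter] at hl2 hl3
    apply abd_aux (by positivity) _ (by positivity) (by positivity) hτ hlam
    have hne : l2 ≠ l3 := fun e => hl3.2.2 (e ▸ hl2.2.1)
    exact_mod_cast inter_card_le_one hlin hl2.1 hl3.1 hne
  refine h1.trans ?_
  simp only [Finset.sum_add_distrib]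
  have hA : ∑ l2 ∈ L.filter (fun l => u ∈ l ∧ y ∉ l), ∑ l3 ∈ L.filter (fun l => y ∈ l ∧ u ∉ l),
      τ * (((l2 ∩ l3).card : ℝ) * (l3.card : ℝ)) ≤ τ * S2 L y := by
    rw [Finset.sum_comm]
    have e1 : ∀ l3 ∈ L.filter (fun l => y ∈ l ∧ u ∉ l),
        ∑ l2 ∈ L.filter (fun l => u ∈ l ∧ y ∉ l), τ * (((l2 ∩ l3).card : ℝ) * (l3.card : ℝ))
        ≤ τ * (l3.card : ℝ) ^ 2 := by
      intro l3 hl3
      rw [Finset.mem_filter] at hl3
      have e2 : ∑ l2 ∈ L.filter (fun l => u ∈ l ∧ y ∉ l), ((l2 ∩ l3).card : ℝ) ≤ (l3.card : ℝ) := by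
        refine le_trans ?_ (sum_inter_le hlin hl3.2.2)
        have e3 : ∀ l2 ∈ L.filter (fun l => u ∈ l ∧ y ∉ l), ((l2 ∩ l3).card : ℝ) =
            ((l3 ∩ l2).card : ℝ) := fun l2 _ => by rw [Finset.inter_comm]
        rw [Finset.sum_congr rfl e3]
        apply Finset.sum_le_sum_of_subset_of_nonneg
        · intro l hl
          rw [Finset.mem_filter] at hl ⊢
          exact ⟨hl.1, hl.2.1⟩
        · intro _ _ _
          positivity
      rw [← Finset.mul_sum, ← Finset.sum_mul]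
      apply mul_le_mul_of_nonneg_left _ hτ.le
      rw [sq]
      exact mul_le_mul_of_nonneg_right e2 (by positivity)
    refine (Finset.sum_le_sum e1).trans ?_
    rw [← Finset.mul_sum]
    apply mul_le_mul_of_nonneg_left _ hτ.le
    unfold S2
    apply Finset.sum_le_sum_of_subset_of_nonneg
    · intro l hl
      rw [Finset.mem_filter] at hl ⊢
      exact ⟨hl.1, hl.2.1⟩
    · intro _ _ _
      positivity
  have hB : ∑ l2 ∈ L.filter (fun l => u ∈ l ∧ y ∉ l), ∑ l3 ∈ L.filter (fun l => y ∈ l ∧ u ∉ l),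
      lam / (2 * τ) * ((l2.card : ℝ) ^ 2 * (l3.card : ℝ) ^ 2) ≤ lam / (2 * τ) * (S2 L u * S2 L y) := by
    simp only [← Finset.mul_sum]
    apply mul_le_mul_of_nonneg_left _ (by positivity)
    rw [← Finset.sum_mul]
    apply mul_le_mul
    · unfold S2
      apply Finset.sum_le_sum_of_subset_of_nonneg
      · intro l hl
        rw [Finset.mem_filter] at hl ⊢
        exact ⟨hl.1, hl.2.1⟩
      · intro _ _ _
        positivity
    · unfold S2
      apply Finset.sum_le_sum_of_subset_of_nonneg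
      · intro l hl
        rw [Finset.mem_filter] at hl ⊢
        exact ⟨hl.1, hl.2.1⟩
      · intro _ _ _
        positivity
    · exact Finset.sum_nonneg (fun _ _ => by positivity)
    · exact S2_nonneg L u
  have hC : ∑ l2 ∈ L.filter (fun l => u ∈ l ∧ y ∉ l), ∑ l3 ∈ L.filter (fun l => y ∈ l ∧ u ∉ l),
      1 / (2 * lam) * (((l2 ∩ l3).card : ℝ) * (l2.card : ℝ)) ≤ 1 / (2 * lam) * S2 L u := by
    have e1 : ∀ l2 ∈ L.filter (fun l => u ∈ l ∧ y ∉ l),
        ∑ l3 ∈ L.filter (fun l => y ∈ l ∧ u ∉ l), 1 / (2 * lam) * (((l2 ∩ l3).card : ℝ) * (l2.card : ℝ))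
        ≤ 1 / (2 * lam) * (l2.card : ℝ) ^ 2 := by
      intro l2 hl2
      rw [Finset.mem_filter] at hl2
      have e2 : ∑ l3 ∈ L.filter (fun l => y ∈ l ∧ u ∉ l), ((l2 ∩ l3).card : ℝ) ≤ (l2.card : ℝ) := by
        refine le_trans ?_ (sum_inter_le hlin hl2.2.2)
        apply Finset.sum_le_sum_of_subset_of_nonneg
        · intro l hl
          rw [Finset.mem_filter] at hl ⊢
          exact ⟨hl.1, hl.2.1⟩
        · intro _ _ _
          positivity
      rw [← Finset.mul_sum, ← Finset.sum_mul]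
      apply mul_le_mul_of_nonneg_left _ (by positivity)
      rw [sq]
      exact mul_le_mul_of_nonneg_right e2 (by positivity)
    refine (Finset.sum_le_sum e1).trans ?_
    rw [← Finset.mul_sum]
    apply mul_le_mul_of_nonneg_left _ (by positivity)
    unfold S2
    apply Finset.sum_le_sum_of_subset_of_nonneg
    · intro l hl
      rw [Finset.mem_filter] at hl ⊢
      exact ⟨hl.1, hl.2.1⟩
    · intro _ _ _
      positivity
  linarith


/-- index type of triangle configurations -/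
abbrev Cfg (V : Type*) := Σ _ : (Σ _ : Finset V, V × V × V), Σ _ : Finset V, Σ _ : Finset V, V × V × V

/-- the six points of a triangle configuration -/
def pts (t : Cfg V) : Finset V :=
  {t.1.2.1, t.1.2.2.1, t.1.2.2.2, t.2.2.2.1, t.2.2.2.2.1, t.2.2.2.2.2}

/-- all weak triangle configurations, whose first side has its two vertices in `G` -/
def TT (L : Finset (Finset V)) (G : Finset V) : Finset (Cfg V) :=
  (L.sigma (fun l1 => (l1 ∩ G) ×ˢ ((l1 ∩ G) ×ˢ l1))).sigma (fun t1 =>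
    (L.filter (fun l => t1.2.2.1 ∈ l ∧ t1.2.1 ∉ l)).sigma (fun l2 =>
      (L.filter (fun l => t1.2.1 ∈ l ∧ t1.2.2.1 ∉ l)).sigma (fun l3 =>
        (l2 ∩ l3) ×ˢ (l2 ×ˢ l3))))

theorem card_TT (L : Finset (Finset V)) (G : Finset V) {B : ℝ} (hB : 0 ≤ B)
    (h : ∀ y ∈ G, ∀ u ∈ G, Gam L y u ≤ B) :
    ((TT L G).card : ℝ) ≤ (∑ l ∈ L, (l.card : ℝ) ^ 3) * B := by
  have h1 : ((TT L G).card : ℝ) =
      ∑ t1 ∈ L.sigma (fun l1 => (l1 ∩ G) ×ˢ ((l1 ∩ G) ×ˢ l1)), Gam L t1.2.1 t1.2.2.1 := by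
    unfold TT Gam
    rw [Finset.card_sigma]
    push_cast
    apply Finset.sum_congr rfl
    intro t1 _
    rw [Finset.card_sigma]
    push_cast
    apply Finset.sum_congr rfl
    intro l2 _
    rw [Finset.card_sigma]
    push_cast
    apply Finset.sum_congr rfl
    intro l3 _
    rw [Finset.card_product, Finset.card_product]
    push_cast
    rfl
  rw [h1]
  have h2 : ∑ t1 ∈ L.sigma (fun l1 => (l1 ∩ G) ×ˢ ((l1 ∩ G) ×ˢ l1)), Gam L t1.2.1 t1.2.2.1 ≤
      ∑ t1 ∈ L.sigma (fun l1 => (l1 ∩ G) ×ˢ ((l1 ∩ G) ×ˢ l1)), B := by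
    apply Finset.sum_le_sum
    intro t1 ht1
    rw [Finset.mem_sigma, Finset.mem_product, Finset.mem_product, Finset.mem_inter,
      Finset.mem_inter] at ht1
    exact h _ ht1.2.1.2 _ ht1.2.2.1.2
  refine h2.trans ?_
  rw [Finset.sum_const, nsmul_eq_mul]
  apply mul_le_mul_of_nonneg_right _ hB
  rw [Finset.card_sigma]
  push_cast
  apply Finset.sum_le_sum
  intro l _
  rw [Finset.card_product, Finset.card_product]
  push_cast
  have h3 : ((l ∩ G).card : ℝ) ≤ (l.card : ℝ) := by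
    exact_mod_cast Finset.card_le_card Finset.inter_subset_left
  calc ((l ∩ G).card : ℝ) * (((l ∩ G).card : ℝ) * (l.card : ℝ))
      ≤ (l.card : ℝ) * ((l.card : ℝ) * (l.card : ℝ)) := by gcongr
    _ = (l.card : ℝ) ^ 3 := by ring

/-- proper triangle configurations inside `G` -/
def T6 (L : Finset (Finset V)) (G : Finset V) : Finset (Cfg V) :=
  (TT L G).filter (fun t => pts t ⊆ G ∧ (pts t).card = 6)

/-- pairs (line, `k` points on it) inside `G` -/
def TK (L : Finset (Finset V)) (G : Finset V) (k : ℕ) : Finset (Σ _ : Finset V, Finset V) :=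
  (L.sigma (fun l => l.powersetCard k)).filter (fun t => t.2 ⊆ G)

theorem card_TK (L : Finset (Finset V)) (G : Finset V) (k : ℕ) :
    ((TK L G k).card : ℝ) ≤ (∑ l ∈ L, (l.card : ℝ) ^ k) / (k.factorial : ℝ) := by
  have h1 : (TK L G k).card ≤ ∑ l ∈ L, (l.card).choose k := by
    unfold TK
    refine (Finset.card_filter_le _ _).trans ?_
    rw [Finset.card_sigma]
    apply le_of_eq
    apply Finset.sum_congr rfl
    intro l _
    rw [Finset.card_powersetCard]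
  have h2 : ((TK L G k).card : ℝ) ≤ ∑ l ∈ L, ((l.card).choose k : ℝ) := by exact_mod_cast h1
  refine h2.trans ?_
  rw [Finset.sum_div]
  apply Finset.sum_le_sum
  intro l _
  exact Nat.choose_le_pow_div k l.card

/-- Markov's inequality for degrees -/
theorem markov_deg {ι : Type*} (W : Finset V) (F : Finset ι) (q : ι → Finset V) (k : ℕ) {D : ℝ}
    (hD : 0 < D) (hF : ∀ t ∈ F, q t ⊆ W ∧ (q t).card = k) :
    ((W.filter (fun y => D < ((F.filter (fun t => y ∈ q t)).card : ℝ))).card : ℝ) ≤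
      k * (F.card : ℝ) / D := by
  rw [le_div_iff₀ hD]
  have h1 : ∑ y ∈ W, ((F.filter (fun t => y ∈ q t)).card : ℝ) = k * F.card := by
    have : ∀ y ∈ W, ((F.filter (fun t => y ∈ q t)).card : ℝ) =
        ∑ t ∈ F, if y ∈ q t then (1:ℝ) else 0 := by
      intro y _
      rw [Finset.card_filter]
      push_cast
      rfl
    rw [Finset.sum_congr rfl this, Finset.sum_comm]
    have h2 : ∀ t ∈ F, ∑ y ∈ W, (if y ∈ q t then (1:ℝ) else 0) = k := by
      intro t ht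
      rw [← Finset.sum_filter, Finset.sum_const, nsmul_eq_mul, mul_one]
      have : W.filter (fun y => y ∈ q t) = q t := by
        ext y
        rw [Finset.mem_filter]
        exact ⟨fun h => h.2, fun h => ⟨(hF t ht).1 h, h⟩⟩
      rw [this, (hF t ht).2]
    rw [Finset.sum_congr rfl h2, Finset.sum_const, nsmul_eq_mul]
    ring
  rw [← h1]
  calc ((W.filter (fun y => D < ((F.filter (fun t => y ∈ q t)).card : ℝ))).card : ℝ) * D
      = ∑ y ∈ W.filter (fun y => D < ((F.filter (fun t => y ∈ q t)).card : ℝ)), D := by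
        rw [Finset.sum_const, nsmul_eq_mul]
    _ ≤ ∑ y ∈ W.filter (fun y => D < ((F.filter (fun t => y ∈ q t)).card : ℝ)),
        ((F.filter (fun t => y ∈ q t)).card : ℝ) := by
        apply Finset.sum_le_sum
        intro y hy
        exact (Finset.mem_filter.mp hy).2.le
    _ ≤ _ := by
        apply Finset.sum_le_sum_of_subset_of_nonneg (Finset.filter_subset _ _)
        intro _ _ _
        positivity

theorem deg_ge (L : Finset (Finset V)) (G W : Finset V) (hWG : W ⊆ G) (k : ℕ) {y : V} (hy : y ∈ W) :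
    ∑ l ∈ L.filter (fun l => y ∈ l), ((l ∩ W).card - 1).choose k ≤
      (((TK L G (k+1)).filter (fun t => t.2 ⊆ W)).filter (fun t => y ∈ t.2)).card := by
  have h1 : ∑ l ∈ L.filter (fun l => y ∈ l), ((l ∩ W).card - 1).choose k =
      ((L.filter (fun l => y ∈ l)).sigma (fun l => ((l ∩ W).erase y).powersetCard k)).card := by
    rw [Finset.card_sigma]
    apply Finset.sum_congr rfl
    intro l hl
    rw [Finset.mem_filter] at hl
    rw [Finset.card_powersetCard, Finset.card_erase_of_mem (Finset.mem_inter.mpr ⟨hl.2, hy⟩)]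
  rw [h1]
  apply Finset.card_le_card_of_injOn
    (fun t : (Σ _ : Finset V, Finset V) => (⟨t.1, insert y t.2⟩ : (Σ _ : Finset V, Finset V)))
  · intro t ht
    rw [Finset.mem_coe, Finset.mem_sigma, Finset.mem_filter, Finset.mem_powersetCard] at ht
    obtain ⟨⟨htL, hyt⟩, hts, htk⟩ := ht
    have hyn : y ∉ t.2 := fun h => (Finset.mem_erase.mp (hts h)).1 rfl
    have hsW : insert y t.2 ⊆ W := by
      rw [Finset.insert_subset_iff]
      exact ⟨hy, fun x hx => (Finset.mem_inter.mp (Finset.mem_erase.mp (hts hx)).2).2⟩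
    rw [Finset.mem_coe, Finset.mem_filter, Finset.mem_filter]
    unfold TK
    rw [Finset.mem_filter, Finset.mem_sigma, Finset.mem_powersetCard]
    refine ⟨⟨⟨⟨htL, ?_, ?_⟩, hsW.trans hWG⟩, hsW⟩, Finset.mem_insert_self _ _⟩
    · rw [Finset.insert_subset_iff]
      exact ⟨hyt, fun x hx => (Finset.mem_inter.mp (Finset.mem_erase.mp (hts hx)).2).1⟩
    · rw [Finset.card_insert_of_notMem hyn, htk]
  · rintro ⟨l, A⟩ ht ⟨l', A'⟩ ht' he
    rw [Finset.mem_coe, Finset.mem_sigma, Finset.mem_powersetCard] at ht ht'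
    have hyn : y ∉ A := fun h => (Finset.mem_erase.mp (ht.2.1 h)).1 rfl
    have hyn' : y ∉ A' := fun h => (Finset.mem_erase.mp (ht'.2.1 h)).1 rfl
    beta_reduce at he
    rw [Sigma.mk.injEq] at he
    obtain ⟨e1, e2⟩ := he
    have e2 := eq_of_heq e2
    dsimp only at e1 e2
    have e3 : A = A' := by
      rw [← Finset.erase_insert hyn, e2, Finset.erase_insert hyn']
    rw [e1, e3]


theorem choose_aux2 {k : ℕ} (hk : 3 ≤ k) : ((k : ℝ)) ^ 2 ≤ 9 * ((k - 1).choose 2 : ℝ) := by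
  obtain ⟨m, rfl⟩ := Nat.exists_eq_add_of_le hk
  have e : 3 + m - 1 = m + 2 := by omega
  rw [e]
  have h1 : (m + 2).choose 2 * 2 = (m + 2) * (m + 1) := by
    have := Nat.choose_succ_right_eq (m + 2) 1
    rw [Nat.choose_one_right] at this
    simpa using this
  have h1' : ((m + 2).choose 2 : ℝ) * 2 = ((m:ℝ) + 2) * (m + 1) := by exact_mod_cast h1
  push_cast
  have hm : (0:ℝ) ≤ m := Nat.cast_nonneg m
  nlinarith

theorem choose_aux3 {k : ℕ} (hk : 3 ≤ k) :
    ((k : ℝ)) ^ 3 ≤ 28 * ((k - 1).choose 2 : ℝ) + 66 * ((k - 1).choose 3 : ℝ) := by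
  obtain ⟨m, rfl⟩ := Nat.exists_eq_add_of_le hk
  have e : 3 + m - 1 = m + 2 := by omega
  rw [e]
  have h1 : (m + 2).choose 2 * 2 = (m + 2) * (m + 1) := by
    have := Nat.choose_succ_right_eq (m + 2) 1
    rw [Nat.choose_one_right] at this
    simpa using this
  have h2 : (m + 2).choose 3 * 3 = (m + 2).choose 2 * m := by
    have := Nat.choose_succ_right_eq (m + 2) 2
    simpa using this
  have h1' : ((m + 2).choose 2 : ℝ) * 2 = ((m:ℝ) + 2) * (m + 1) := by exact_mod_cast h1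
  have h2' : ((m + 2).choose 3 : ℝ) * 3 = ((m + 2).choose 2 : ℝ) * m := by exact_mod_cast h2
  have h3 : ((m + 2).choose 3 : ℝ) * 6 = ((m:ℝ) + 2) * (m + 1) * m := by
    calc ((m + 2).choose 3 : ℝ) * 6 = (((m + 2).choose 3 : ℝ) * 3) * 2 := by ring
      _ = (((m + 2).choose 2 : ℝ) * 2) * m := by rw [h2']; ring
      _ = _ := by rw [h1']
  push_cast
  have hm : (0:ℝ) ≤ m := Nat.cast_nonneg m
  have hm3 : (0:ℝ) ≤ (m:ℝ)^3 := by positivity
  nlinarith

theorem six_card {a b c d e f : V} (hab : a ≠ b) (hac : a ≠ c) (had : a ≠ d) (hae : a ≠ e)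
    (haf : a ≠ f) (hbc : b ≠ c) (hbd : b ≠ d) (hbe : b ≠ e) (hbf : b ≠ f) (hcd : c ≠ d)
    (hce : c ≠ e) (hcf : c ≠ f) (hde : d ≠ e) (hdf : d ≠ f) (hef : e ≠ f) :
    ({a, b, c, d, e, f} : Finset V).card = 6 := by
  rw [Finset.card_insert_of_notMem (by simp [hab, hac, had, hae, haf]),
    Finset.card_insert_of_notMem (by simp [hbc, hbd, hbe, hbf]),
    Finset.card_insert_of_notMem (by simp [hcd, hce, hcf]),
    Finset.card_insert_of_notMem (by simp [hde, hdf]),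
    Finset.card_insert_of_notMem (by simp [hef]), Finset.card_singleton]

theorem exists_third {l Vs : Finset V} (h : 3 ≤ (l ∩ Vs).card) (x y : V) :
    ∃ z ∈ l, z ∈ Vs ∧ z ≠ x ∧ z ≠ y := by
  by_contra hcon
  push Not at hcon
  have h1 : l ∩ Vs ⊆ {x, y} := by
    intro z hz
    rw [Finset.mem_inter] at hz
    by_cases hzx : z = x
    · simp [hzx]
    · simp [hcon z hz.1 hz.2 hzx]
  have h2 := Finset.card_le_card h1
  have h3 : ({x, y} : Finset V).card ≤ 2 := Finset.card_le_two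
  omega

theorem exists_clean (L : Finset (Finset V)) (hlin : Lin L) (G : Finset V) {p D3 D4 : ℝ}
    (hp0 : 0 ≤ p) (hp1 : p ≤ 1) (hD3 : 0 < D3) (hD4 : 0 < D4) :
    ∃ Vs : Finset V,
      (∀ l1 ∈ L, ∀ l2 ∈ L, ∀ l3 ∈ L, 3 ≤ (l1 ∩ Vs).card → 3 ≤ (l2 ∩ Vs).card →
        3 ≤ (l3 ∩ Vs).card → l1 ≠ l2 → l2 ≠ l3 → l1 ≠ l3 → ∀ x ∈ Vs, ∀ y ∈ Vs, ∀ z ∈ Vs,
        x ≠ y → y ≠ z → x ≠ z → x ∈ l1 → x ∈ l2 → y ∈ l2 → y ∈ l3 → z ∈ l1 → z ∈ l3 → False) ∧
      (∀ y ∈ Vs, ∑ l ∈ L.filter (fun l => y ∈ l ∧ 3 ≤ (l ∩ Vs).card),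
        ((l ∩ Vs).card : ℝ) ^ 2 ≤ 9 * D3) ∧
      (∀ y ∈ Vs, ∑ l ∈ L.filter (fun l => y ∈ l ∧ 3 ≤ (l ∩ Vs).card),
        ((l ∩ Vs).card : ℝ) ^ 3 ≤ 28 * D3 + 66 * D4) ∧
      p * (G.card : ℝ) - ((T6 L G).card : ℝ) * p ^ 6 - 3 * (((TK L G 3).card : ℝ) * p ^ 3) / D3
        - 4 * (((TK L G 4).card : ℝ) * p ^ 4) / D4 ≤ (Vs.card : ℝ) := by
  -- the expectation
  obtain ⟨f, hf⟩ : ∃ f : Finset V → ℝ, f = fun W => (1:ℝ) * ((G.filter (fun y => {y} ⊆ W)).card : ℝ)
    + ((-1) * (((T6 L G).filter (fun t => pts t ⊆ W)).card : ℝ)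
    + ((-(3/D3)) * (((TK L G 3).filter (fun t => t.2 ⊆ W)).card : ℝ)
    + (-(4/D4)) * (((TK L G 4).filter (fun t => t.2 ⊆ W)).card : ℝ))) := ⟨_, rfl⟩
  have hcs : cs G (fun _ => p) f = p * (G.card : ℝ) - ((T6 L G).card : ℝ) * p ^ 6
      - 3 * (((TK L G 3).card : ℝ) * p ^ 3) / D3 - 4 * (((TK L G 4).card : ℝ) * p ^ 4) / D4 := by
    rw [hf, cs_add, cs_add, cs_add, cs_smul, cs_smul, cs_smul, cs_smul,
      cs_count G p G (fun y => {y}) 1, cs_count G p (T6 L G) pts 6,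
      cs_count G p (TK L G 3) (fun t => t.2) 3, cs_count G p (TK L G 4) (fun t => t.2) 4]
    · ring
    · intro t ht
      unfold TK at ht
      rw [Finset.mem_filter, Finset.mem_sigma, Finset.mem_powersetCard] at ht
      exact ⟨ht.2, ht.1.2.2⟩
    · intro t ht
      unfold TK at ht
      rw [Finset.mem_filter, Finset.mem_sigma, Finset.mem_powersetCard] at ht
      exact ⟨ht.2, ht.1.2.2⟩
    · intro t ht
      unfold T6 at ht
      rw [Finset.mem_filter] at ht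
      exact ht.2
    · intro t ht
      simpa using ht
  obtain ⟨W, hWG, hW⟩ := cs_exists G (fun _ => p) (fun _ _ => hp0) (fun _ _ => hp1) f
  rw [hcs] at hW
  obtain ⟨B1, hB1⟩ : ∃ B1 : Finset V, B1 = ((T6 L G).filter (fun t => pts t ⊆ W)).image
    (fun t => t.1.2.1) := ⟨_, rfl⟩
  obtain ⟨B2, hB2⟩ : ∃ B2 : Finset V, B2 = W.filter (fun y => D3 <
    ((((TK L G 3).filter (fun t => t.2 ⊆ W)).filter (fun t => y ∈ t.2)).card : ℝ)) := ⟨_, rfl⟩
  obtain ⟨B3, hB3⟩ : ∃ B3 : Finset V, B3 = W.filter (fun y => D4 <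
    ((((TK L G 4).filter (fun t => t.2 ⊆ W)).filter (fun t => y ∈ t.2)).card : ℝ)) := ⟨_, rfl⟩
  have hc1 : (B1.card : ℝ) ≤ (((T6 L G).filter (fun t => pts t ⊆ W)).card : ℝ) := by
    rw [hB1]
    exact_mod_cast Finset.card_image_le
  have hc2 : (B2.card : ℝ) ≤ 3 * (((TK L G 3).filter (fun t => t.2 ⊆ W)).card : ℝ) / D3 := by
    rw [hB2]
    have := markov_deg W ((TK L G 3).filter (fun t => t.2 ⊆ W)) (fun t => t.2) 3 hD3 (by
      intro t ht
      unfold TK at ht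
      rw [Finset.mem_filter, Finset.mem_filter, Finset.mem_sigma, Finset.mem_powersetCard] at ht
      exact ⟨ht.2, ht.1.1.2.2⟩)
    simpa using this
  have hc3 : (B3.card : ℝ) ≤ 4 * (((TK L G 4).filter (fun t => t.2 ⊆ W)).card : ℝ) / D4 := by
    rw [hB3]
    have := markov_deg W ((TK L G 4).filter (fun t => t.2 ⊆ W)) (fun t => t.2) 4 hD4 (by
      intro t ht
      unfold TK at ht
      rw [Finset.mem_filter, Finset.mem_filter, Finset.mem_sigma, Finset.mem_powersetCard] at ht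
      exact ⟨ht.2, ht.1.1.2.2⟩)
    simpa using this
  obtain ⟨Vs, hVs⟩ : ∃ Vs : Finset V, Vs = W \ (B1 ∪ B2 ∪ B3) := ⟨_, rfl⟩
  have hVsW : Vs ⊆ W := by rw [hVs]; exact Finset.sdiff_subset
  have hmem : ∀ y ∈ Vs, y ∈ W ∧ y ∉ B1 ∧ y ∉ B2 ∧ y ∉ B3 := by
    intro y hy
    rw [hVs, Finset.mem_sdiff, Finset.mem_union, Finset.mem_union] at hy
    push Not at hy
    exact ⟨hy.1, hy.2.1.1, hy.2.1.2, hy.2.2⟩
  have hd3 : ∀ y ∈ Vs, ((∑ l ∈ L.filter (fun l => y ∈ l), ((l ∩ W).card - 1).choose 2 : ℕ) : ℝ) ≤ D3 := by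
    intro y hy
    obtain ⟨hyW, _, hy2, _⟩ := hmem y hy
    rw [hB2, Finset.mem_filter] at hy2
    push Not at hy2
    refine le_trans ?_ (hy2 hyW)
    exact_mod_cast deg_ge L G W hWG 2 hyW
  have hd4 : ∀ y ∈ Vs, ((∑ l ∈ L.filter (fun l => y ∈ l), ((l ∩ W).card - 1).choose 3 : ℕ) : ℝ) ≤ D4 := by
    intro y hy
    obtain ⟨hyW, _, _, hy3⟩ := hmem y hy
    rw [hB3, Finset.mem_filter] at hy3
    push Not at hy3
    refine le_trans ?_ (hy3 hyW)
    exact_mod_cast deg_ge L G W hWG 3 hyW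
  refine ⟨Vs, ?_, ?_, ?_, ?_⟩
  · intro l1 hl1 l2 hl2 l3 hl3 k1 k2 k3 h12 h23 h13 x hx y hy z hz hxy hyz hxz x1 x2 y2 y3 z1 z3
    obtain ⟨a, ha, haV, hax, haz⟩ := exists_third k1 x z
    obtain ⟨b, hb, hbV, hbx, hby⟩ := exists_third k2 x y
    obtain ⟨c, hc, hcV, hcy, hcz⟩ := exists_third k3 y z
    have hzl2 : z ∉ l2 := fun h => h12 (hlin l1 hl1 l2 hl2 x z hxz x1 z1 x2 h)
    have hxl3 : x ∉ l3 := fun h => h13 (hlin l1 hl1 l3 hl3 x z hxz x1 z1 h z3)
    have hyl1 : y ∉ l1 := fun h => h12 (hlin l1 hl1 l2 hl2 x y hxy x1 h x2 y2)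
    have hac : a ≠ y := fun h => hyl1 (h ▸ ha)
    have hab : a ≠ b := fun h => h12 (hlin l1 hl1 l2 hl2 a x hax ha x1 (h ▸ hb) x2)
    have hac' : a ≠ c := fun h => h13 (hlin l1 hl1 l3 hl3 a z haz ha z1 (h ▸ hc) z3)
    have hbc : b ≠ c := fun h => h23 (hlin l2 hl2 l3 hl3 b y hby hb y2 (h ▸ hc) y3)
    have hbz : b ≠ z := fun h => hzl2 (h ▸ hb)
    have hcx : c ≠ x := fun h => hxl3 (h ▸ hc)
    obtain ⟨t, ht⟩ : ∃ t : Cfg V, t = ⟨⟨l1, (z, x, a)⟩, ⟨l2, ⟨l3, (y, b, c)⟩⟩⟩ := ⟨_, rfl⟩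
    have hptsVs : pts t ⊆ Vs := by
      rw [ht]
      intro q hq
      unfold pts at hq
      simp only [Finset.mem_insert, Finset.mem_singleton] at hq
      rcases hq with rfl | rfl | rfl | rfl | rfl | rfl <;> assumption
    have hptsW : pts t ⊆ W := hptsVs.trans hVsW
    have hcard : (pts t).card = 6 := by
      rw [ht]
      unfold pts
      exact six_card hxz.symm haz.symm hyz.symm hbz.symm hcz.symm hax.symm hxy hbx.symm hcx.symm
        hac hab hac' hby.symm hcy.symm hbc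
    have htT : t ∈ T6 L G := by
      unfold T6
      rw [Finset.mem_filter]
      refine ⟨?_, hptsW.trans hWG, hcard⟩
      rw [ht]
      unfold TT
      simp only [Finset.mem_sigma, Finset.mem_product, Finset.mem_inter, Finset.mem_filter]
      exact ⟨⟨hl1, ⟨z1, hWG (hVsW hz)⟩, ⟨x1, hWG (hVsW hx)⟩, ha⟩, ⟨hl2, x2, hzl2⟩, ⟨hl3, z3, hxl3⟩,
        ⟨y2, y3⟩, hb, hc⟩
    apply (hmem z hz).2.1
    rw [hB1, Finset.mem_image]
    refine ⟨t, ?_, by rw [ht]⟩
    rw [Finset.mem_filter]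
    exact ⟨htT, hptsW⟩
  · intro y hy
    have h1 : ∀ l ∈ L.filter (fun l => y ∈ l ∧ 3 ≤ (l ∩ Vs).card), ((l ∩ Vs).card : ℝ) ^ 2 ≤
        9 * (((l ∩ W).card - 1).choose 2 : ℝ) := by
      intro l hl
      rw [Finset.mem_filter] at hl
      have h2 : (l ∩ Vs).card ≤ (l ∩ W).card :=
        Finset.card_le_card (Finset.inter_subset_inter_left hVsW)
      refine le_trans ?_ (choose_aux2 (hl.2.2.trans h2))
      gcongr
    refine (Finset.sum_le_sum h1).trans ?_
    rw [← Finset.mul_sum]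
    apply mul_le_mul_of_nonneg_left _ (by norm_num)
    refine le_trans ?_ (hd3 y hy)
    push_cast
    apply Finset.sum_le_sum_of_subset_of_nonneg
    · intro l hl
      rw [Finset.mem_filter] at hl ⊢
      exact ⟨hl.1, hl.2.1⟩
    · intro _ _ _
      positivity
  · intro y hy
    have h1 : ∀ l ∈ L.filter (fun l => y ∈ l ∧ 3 ≤ (l ∩ Vs).card), ((l ∩ Vs).card : ℝ) ^ 3 ≤
        28 * (((l ∩ W).card - 1).choose 2 : ℝ) + 66 * (((l ∩ W).card - 1).choose 3 : ℝ) := by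
      intro l hl
      rw [Finset.mem_filter] at hl
      have h2 : (l ∩ Vs).card ≤ (l ∩ W).card :=
        Finset.card_le_card (Finset.inter_subset_inter_left hVsW)
      refine le_trans ?_ (choose_aux3 (hl.2.2.trans h2))
      gcongr
    refine (Finset.sum_le_sum h1).trans ?_
    rw [Finset.sum_add_distrib, ← Finset.mul_sum, ← Finset.mul_sum]
    apply add_le_add
    · apply mul_le_mul_of_nonneg_left _ (by norm_num)
      refine le_trans ?_ (hd3 y hy)
      push_cast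
      apply Finset.sum_le_sum_of_subset_of_nonneg
      · intro l hl
        rw [Finset.mem_filter] at hl ⊢
        exact ⟨hl.1, hl.2.1⟩
      · intro _ _ _
        positivity
    · apply mul_le_mul_of_nonneg_left _ (by norm_num)
      refine le_trans ?_ (hd4 y hy)
      push_cast
      apply Finset.sum_le_sum_of_subset_of_nonneg
      · intro l hl
        rw [Finset.mem_filter] at hl ⊢
        exact ⟨hl.1, hl.2.1⟩
      · intro _ _ _
        positivity
  · refine hW.trans ?_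
    have hGW : G.filter (fun y => {y} ⊆ W) = W := by
      ext y
      rw [Finset.mem_filter, Finset.singleton_subset_iff]
      exact ⟨fun h => h.2, fun h => ⟨hWG h, h⟩⟩
    have h1 : (W.card : ℝ) ≤ (Vs.card : ℝ) + ((B1.card : ℝ) + (B2.card : ℝ) + (B3.card : ℝ)) := by
      have h2 : W ⊆ Vs ∪ (B1 ∪ B2 ∪ B3) := by
        rw [hVs]
        intro y hy
        by_cases h : y ∈ B1 ∪ B2 ∪ B3
        · exact Finset.mem_union_right _ h
        · exact Finset.mem_union_left _ (Finset.mem_sdiff.mpr ⟨hy, h⟩)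
      have h3 := (Finset.card_le_card h2).trans (Finset.card_union_le _ _)
      have h4 := (Finset.card_union_le (B1 ∪ B2) B3)
      have h5 := (Finset.card_union_le B1 B2)
      have h6 : W.card ≤ Vs.card + (B1.card + B2.card + B3.card) := by omega
      exact_mod_cast h6
    rw [hf]
    beta_reduce
    rw [hGW]
    have e3 : (-(3/D3)) * (((TK L G 3).filter (fun t => t.2 ⊆ W)).card : ℝ) =
      - (3 * (((TK L G 3).filter (fun t => t.2 ⊆ W)).card : ℝ) / D3) := by ring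
    have e4 : (-(4/D4)) * (((TK L G 4).filter (fun t => t.2 ⊆ W)).card : ℝ) =
      - (4 * (((TK L G 4).filter (fun t => t.2 ⊆ W)).card : ℝ) / D4) := by ring
    rw [e3, e4]
    linarith


theorem sum_image_le_sum {α β : Type*} [DecidableEq β] (s : Finset α) (f : α → β) (g : β → ℝ)
    (hg : ∀ b, 0 ≤ g b) : ∑ b ∈ s.image f, g b ≤ ∑ a ∈ s, g (f a) := by
  induction s using Finset.induction_on with
  | empty => simp
  | insert a s ha ih =>
    rw [Finset.image_insert, Finset.sum_insert ha]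
    by_cases h : f a ∈ s.image f
    · rw [Finset.insert_eq_of_mem h]
      have := hg (f a)
      linarith
    · rw [Finset.sum_insert h]
      linarith

theorem restrict_greedy {C1 C3 c M0 : ℝ}
    (hg : ∀ (V : Type) [Fintype V] [DecidableEq V]
      (L : Finset (Finset V)) (M : ℝ), M0 ≤ M → Lin L → TriFree L →
      (∀ y : V, ∑ l ∈ L.filter (fun l => y ∈ l), (l.card : ℝ) ^ 2 ≤ C1 * M ^ 2 * Real.log M) →
      (∀ y : V, ∑ l ∈ L.filter (fun l => y ∈ l), (l.card : ℝ) ^ 3 ≤ C3 * M ^ 3) →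
      ∃ R : Finset V, (∀ l ∈ L, (l ∩ R).card ≤ 2) ∧ c * (Fintype.card V : ℝ) / M ≤ (R.card : ℝ))
    (V : Type) [DecidableEq V] (L : Finset (Finset V)) (hlin : Lin L) (Vs : Finset V)
    (M : ℝ) (hM : M0 ≤ M)
    (htri : ∀ l1 ∈ L, ∀ l2 ∈ L, ∀ l3 ∈ L, 3 ≤ (l1 ∩ Vs).card → 3 ≤ (l2 ∩ Vs).card →
        3 ≤ (l3 ∩ Vs).card → l1 ≠ l2 → l2 ≠ l3 → l1 ≠ l3 → ∀ x ∈ Vs, ∀ y ∈ Vs, ∀ z ∈ Vs,
        x ≠ y → y ≠ z → x ≠ z → x ∈ l1 → x ∈ l2 → y ∈ l2 → y ∈ l3 → z ∈ l1 → z ∈ l3 → False)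
    (h2 : ∀ y ∈ Vs, ∑ l ∈ L.filter (fun l => y ∈ l ∧ 3 ≤ (l ∩ Vs).card),
        ((l ∩ Vs).card : ℝ) ^ 2 ≤ C1 * M ^ 2 * Real.log M)
    (h3 : ∀ y ∈ Vs, ∑ l ∈ L.filter (fun l => y ∈ l ∧ 3 ≤ (l ∩ Vs).card),
        ((l ∩ Vs).card : ℝ) ^ 3 ≤ C3 * M ^ 3) :
    ∃ S : Finset V, (∀ l ∈ L, (l ∩ S).card ≤ 2) ∧ c * (Vs.card : ℝ) / M ≤ (S.card : ℝ) := by
  obtain ⟨L', hL'⟩ : ∃ L' : Finset (Finset {x // x ∈ Vs}),
    L' = (L.filter (fun l => 3 ≤ (l ∩ Vs).card)).image (fun l => l.subtype (fun x => x ∈ Vs)) :=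
    ⟨_, rfl⟩
  have hcard : ∀ l : Finset V, (l.subtype (fun x => x ∈ Vs)).card = (l ∩ Vs).card := by
    intro l
    rw [Finset.card_subtype, Finset.filter_mem_eq_inter]
  have hmemL' : ∀ l' ∈ L', ∃ l ∈ L, 3 ≤ (l ∩ Vs).card ∧ l' = l.subtype (fun x => x ∈ Vs) := by
    intro l' hl'
    rw [hL', Finset.mem_image] at hl'
    obtain ⟨l, hl, rfl⟩ := hl'
    rw [Finset.mem_filter] at hl
    exact ⟨l, hl.1, hl.2, rfl⟩
  have hlin' : Lin L' := by
    intro l hl l' hl' x y hxy x1 y1 x2 y2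
    obtain ⟨k, hk, _, rfl⟩ := hmemL' l hl
    obtain ⟨k', hk', _, rfl⟩ := hmemL' l' hl'
    rw [Finset.mem_subtype] at x1 y1 x2 y2
    have hxy' : (x : V) ≠ y := fun e => hxy (Subtype.ext e)
    rw [hlin k hk k' hk' x y hxy' x1 y1 x2 y2]
  have htri' : TriFree L' := by
    intro l1 hl1 l2 hl2 l3 hl3 h12 h23 h13 x y z hxy hyz hxz x1 x2 y2 y3 z1 z3
    obtain ⟨k1, hk1, c1, rfl⟩ := hmemL' l1 hl1
    obtain ⟨k2, hk2, c2, rfl⟩ := hmemL' l2 hl2
    obtain ⟨k3, hk3, c3, rfl⟩ := hmemL' l3 hl3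
    rw [Finset.mem_subtype] at x1 x2 y2 y3 z1 z3
    exact htri k1 hk1 k2 hk2 k3 hk3 c1 c2 c3 (fun e => h12 (by rw [e])) (fun e => h23 (by rw [e]))
      (fun e => h13 (by rw [e])) x x.2 y y.2 z z.2 (fun e => hxy (Subtype.ext e))
      (fun e => hyz (Subtype.ext e)) (fun e => hxz (Subtype.ext e)) x1 x2 y2 y3 z1 z3
  have hsum : ∀ (m : ℕ) (y : {x // x ∈ Vs}), ∑ l ∈ L'.filter (fun l => y ∈ l), (l.card : ℝ) ^ m ≤
      ∑ l ∈ L.filter (fun l => (y : V) ∈ l ∧ 3 ≤ (l ∩ Vs).card), ((l ∩ Vs).card : ℝ) ^ m := by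
    intro m y
    rw [hL', Finset.filter_image]
    refine (sum_image_le_sum _ _ (fun l : Finset {x // x ∈ Vs} => (l.card : ℝ) ^ m)
      (fun _ => by positivity)).trans ?_
    beta_reduce
    rw [Finset.filter_filter]
    apply le_of_eq
    apply Finset.sum_congr
    · ext l
      simp only [Finset.mem_filter, Finset.mem_subtype]
      tauto
    · intro l _
      rw [hcard]
  obtain ⟨R, hR, hRc⟩ := hg {x // x ∈ Vs} L' M hM hlin' htri'
    (fun y => (by convert (hsum 2 y).trans (h2 y y.2)))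
    (fun y => (by convert (hsum 3 y).trans (h3 y y.2)))
  refine ⟨R.map (Function.Embedding.subtype _), ?_, ?_⟩
  · intro l hl
    have hsub : l ∩ R.map (Function.Embedding.subtype _) ⊆ l ∩ Vs := by
      intro x hx
      rw [Finset.mem_inter, Finset.mem_map] at hx
      obtain ⟨hx1, y, _, rfl⟩ := hx
      exact Finset.mem_inter.mpr ⟨hx1, y.2⟩
    by_cases h : 3 ≤ (l ∩ Vs).card
    · have h4 := hR (l.subtype (fun x => x ∈ Vs)) (by
        rw [hL', Finset.mem_image]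
        exact ⟨l, Finset.mem_filter.mpr ⟨hl, h⟩, rfl⟩)
      have h5 : l ∩ R.map (Function.Embedding.subtype _) =
          ((l.subtype (fun x => x ∈ Vs)) ∩ R).map (Function.Embedding.subtype _) := by
        ext x
        simp only [Finset.mem_inter, Finset.mem_map, Finset.mem_subtype,
          Function.Embedding.subtype_apply]
        constructor
        · rintro ⟨hx, y, hy, rfl⟩
          exact ⟨y, ⟨hx, hy⟩, rfl⟩
        · rintro ⟨y, ⟨hy1, hy2⟩, rfl⟩
          exact ⟨hy1, y, hy2, rfl⟩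
      rw [h5, Finset.card_map]
      convert h4
    · have := Finset.card_le_card hsub
      omega
  · rw [Finset.card_map]
    convert hRc using 3
    rw [Fintype.card_coe]


theorem sum_S2 {V : Type*} [Fintype V] [DecidableEq V] (L : Finset (Finset V)) :
    ∑ y : V, S2 L y = ∑ l ∈ L, (l.card : ℝ) ^ 3 := by
  unfold S2
  have h1 : ∀ y : V, ∑ l ∈ L.filter (fun l => y ∈ l), (l.card : ℝ) ^ 2 =
      ∑ l ∈ L, if y ∈ l then (l.card : ℝ) ^ 2 else 0 := fun y => by rw [Finset.sum_filter]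
  simp only [h1]
  rw [Finset.sum_comm]
  apply Finset.sum_congr rfl
  intro l _
  rw [← Finset.sum_filter, Finset.sum_const, nsmul_eq_mul]
  have : Finset.univ.filter (fun y => y ∈ l) = l := by ext; simp
  rw [this]
  ring

theorem sample_exists (A : ℝ) (hA : 1 ≤ A) : ∃ c : ℝ, 0 < c ∧ ∃ N0 : ℝ, 1 ≤ N0 ∧
    ∀ (V : Type) [Fintype V] [DecidableEq V] (L : Finset (Finset V)),
      N0 ≤ (Fintype.card V : ℝ) → Lin L →
      (∑ l ∈ L, (l.card : ℝ) ^ 3 ≤ A * (Fintype.card V : ℝ) ^ 2 * Real.log (Fintype.card V)) →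
      (∑ l ∈ L, (l.card : ℝ) ^ 4 ≤ A * (Fintype.card V : ℝ) ^ 2 * Real.sqrt (Fintype.card V)) →
      ∃ S : Finset V, (∀ l ∈ L, (l ∩ S).card ≤ 2) ∧
        c * Real.sqrt (Fintype.card V) ≤ (S.card : ℝ) := by
  obtain ⟨c, hc, M0, hM0, hg⟩ := greedy_exists (2880 * A) (9092 * A) (by linarith) (by linarith)
  obtain ⟨K, hK⟩ : ∃ K : ℝ, K = max M0 (max 3 (57344000 * A ^ 3)) := ⟨_, rfl⟩
  have hK0 : M0 ≤ K := by rw [hK]; exact le_max_left _ _
  have hK3 : 3 ≤ K := by rw [hK]; exact le_max_of_le_right (le_max_left _ _)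
  have hKA : 57344000 * A ^ 3 ≤ K := by rw [hK]; exact le_max_of_le_right (le_max_right _ _)
  refine ⟨3 / 8 * c, by positivity, K ^ 80, one_le_pow₀ (by linarith), ?_⟩
  intro V _ _ L hN hlin H3 H4
  obtain ⟨n, hn⟩ : ∃ n : ℝ, n = (Fintype.card V : ℝ) := ⟨_, rfl⟩
  rw [← hn] at hN H3 H4 ⊢
  have hn1 : 1 ≤ n := le_trans (one_le_pow₀ (by linarith)) hN
  obtain ⟨M, hM⟩ : ∃ M : ℝ, M = Real.exp (Real.log n / 80) := ⟨_, rfl⟩
  have hMpos : 0 < M := by rw [hM]; exact Real.exp_pos _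
  have hM80 : M ^ 80 = n := by
    rw [hM, ← Real.exp_nat_mul]
    have : ((80 : ℕ) : ℝ) * (Real.log n / 80) = Real.log n := by push_cast; ring
    rw [this, Real.exp_log (by linarith)]
  have hlogM : Real.log n = 80 * Real.log M := by
    rw [hM, Real.log_exp]; ring
  have hKM : K ≤ M := by
    by_contra h
    push Not at h
    have := pow_lt_pow_left₀ h hMpos.le (by norm_num : (80:ℕ) ≠ 0)
    linarith
  have hM3 : 3 ≤ M := by linarith
  have hsqrt : Real.sqrt n = M ^ 40 := by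
    rw [← hM80]
    have : M ^ 80 = (M ^ 40) ^ 2 := by ring
    rw [this, Real.sqrt_sq (by positivity)]
  obtain ⟨lg, hlg⟩ : ∃ lg : ℝ, lg = Real.log M := ⟨_, rfl⟩
  have hlg1 : 1 ≤ lg := by
    rw [hlg, Real.le_log_iff_exp_le hMpos]
    have := Real.exp_one_lt_d9
    linarith
  have hlgM : lg ≤ M := by
    rw [hlg]
    have := Real.log_le_sub_one_of_pos hMpos
    linarith
  rw [hlogM, ← hlg] at H3
  rw [hsqrt] at H4 ⊢
  rw [← hM80] at H3 H4
  -- the good vertices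
  obtain ⟨S, hS⟩ : ∃ S : ℝ, S = 320 * A * M ^ 80 * lg := ⟨_, rfl⟩
  have hSpos : 0 < S := by rw [hS]; positivity
  obtain ⟨G, hG⟩ : ∃ G : Finset V, G = Finset.univ.filter (fun y => S2 L y ≤ S) := ⟨_, rfl⟩
  have hGcard : 3 / 4 * M ^ 80 ≤ (G.card : ℝ) := by
    have h1 : ((Finset.univ.filter (fun y : V => ¬ S2 L y ≤ S)).card : ℝ) * S ≤
        A * (M ^ 80) ^ 2 * (80 * lg) := by
      refine le_trans ?_ H3
      rw [← sum_S2]
      calc ((Finset.univ.filter (fun y : V => ¬ S2 L y ≤ S)).card : ℝ) * S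
          = ∑ y ∈ Finset.univ.filter (fun y : V => ¬ S2 L y ≤ S), S := by
            rw [Finset.sum_const, nsmul_eq_mul]
        _ ≤ ∑ y ∈ Finset.univ.filter (fun y : V => ¬ S2 L y ≤ S), S2 L y := by
            apply Finset.sum_le_sum
            intro y hy
            have := (Finset.mem_filter.mp hy).2
            linarith
        _ ≤ _ := by
            apply Finset.sum_le_sum_of_subset_of_nonneg (Finset.subset_univ _)
            intro y _ _
            exact S2_nonneg L y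
    have h2 : (Finset.univ.filter (fun y : V => ¬ S2 L y ≤ S)).card + G.card = Fintype.card V := by
      rw [hG, add_comm, Finset.card_filter_add_card_filter_not, Finset.card_univ]
    have h3 : ((Finset.univ.filter (fun y : V => ¬ S2 L y ≤ S)).card : ℝ) + (G.card : ℝ) = M ^ 80 := by
      rw [hM80, hn]; exact_mod_cast h2
    have h4 : ((Finset.univ.filter (fun y : V => ¬ S2 L y ≤ S)).card : ℝ) ≤ M ^ 80 / 4 := by
      have h5 : A * (M ^ 80) ^ 2 * (80 * lg) = M ^ 80 / 4 * S := by rw [hS]; ring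
      rw [h5] at h1
      exact le_of_mul_le_mul_right h1 hSpos
    linarith
  -- bound for Gam
  obtain ⟨B, hB⟩ : ∃ B : ℝ, B = 14 * A ^ 2 * M ^ 110 * (80 * lg) ^ 2 := ⟨_, rfl⟩
  have hGam : ∀ y ∈ G, ∀ u ∈ G, Gam L y u ≤ B := by
    intro y hy u hu
    rw [hG, Finset.mem_filter] at hy hu
    have h1 := Gam_le hlin y u (τ := M ^ 30) (lam := 1 / M ^ 30) (by positivity) (by positivity)
    refine h1.trans ?_
    have h2 : M ^ 30 * S2 L y ≤ M ^ 30 * S := mul_le_mul_of_nonneg_left hy.2 (by positivity)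
    have h3 : 1 / M ^ 30 / (2 * M ^ 30) * (S2 L u * S2 L y) ≤ 1 / M ^ 30 / (2 * M ^ 30) * (S * S) := by
      apply mul_le_mul_of_nonneg_left _ (by positivity)
      exact mul_le_mul hu.2 hy.2 (S2_nonneg L y) hSpos.le
    have h4 : 1 / (2 * (1 / M ^ 30)) * S2 L u ≤ 1 / (2 * (1 / M ^ 30)) * S :=
      mul_le_mul_of_nonneg_left hu.2 (by positivity)
    have h5 : 1 / M ^ 30 / (2 * M ^ 30) * (S * S) = 51200 * A ^ 2 * M ^ 100 * lg ^ 2 := by
      rw [hS]
      field_simp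
      ring
    have h6 : 1 / (2 * (1 / M ^ 30)) * S = 160 * A * M ^ 110 * lg := by
      rw [hS]
      field_simp
      ring
    have h7 : M ^ 30 * S = 320 * A * M ^ 110 * lg := by rw [hS]; ring
    have h8 : A * M ^ 110 * lg ≤ A ^ 2 * M ^ 110 * lg ^ 2 := by
      have e : A ^ 2 * M ^ 110 * lg ^ 2 = (A * M ^ 110 * lg) * (A * lg) := by ring
      rw [e]
      apply le_mul_of_one_le_right (by positivity)
      nlinarith
    have h9 : A ^ 2 * M ^ 100 * lg ^ 2 ≤ A ^ 2 * M ^ 110 * lg ^ 2 := by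
      have : M ^ 100 ≤ M ^ 110 := pow_le_pow_right₀ (by linarith) (by norm_num)
      gcongr
    have h10 : B = 89600 * (A ^ 2 * M ^ 110 * lg ^ 2) := by rw [hB]; ring
    rw [h10]
    rw [h5] at h3
    rw [h6] at h4
    rw [h7] at h2
    have hX : 0 ≤ A ^ 2 * M ^ 110 * lg ^ 2 := by positivity
    linarith
  have hBnn : 0 ≤ B := by rw [hB]; positivity
  have hT6 : ((T6 L G).card : ℝ) ≤ 1120 * A ^ 3 * M ^ 270 * lg * (80 * lg) ^ 2 := by
    have h1 : ((T6 L G).card : ℝ) ≤ ((TT L G).card : ℝ) := by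
      exact_mod_cast Finset.card_filter_le _ _
    refine h1.trans ((card_TT L G hBnn hGam).trans ?_)
    refine (mul_le_mul_of_nonneg_right H3 hBnn).trans ?_
    rw [hB]
    apply le_of_eq
    ring
  have hTK3 : ((TK L G 3).card : ℝ) ≤ A * M ^ 160 * (80 * lg) / 6 := by
    have h1 := card_TK L G 3
    have h2 : ((Nat.factorial 3 : ℕ) : ℝ) = 6 := by norm_num [Nat.factorial]
    rw [h2] at h1
    have h3 : A * (M ^ 80) ^ 2 * (80 * lg) = A * M ^ 160 * (80 * lg) := by ring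
    rw [h3] at H3
    linarith
  have hTK4 : ((TK L G 4).card : ℝ) ≤ A * M ^ 200 / 24 := by
    have h1 := card_TK L G 4
    have h2 : ((Nat.factorial 4 : ℕ) : ℝ) = 24 := by norm_num [Nat.factorial]
    rw [h2] at h1
    have h3 : A * (M ^ 80) ^ 2 * M ^ 40 = A * M ^ 200 := by ring
    rw [h3] at H4
    linarith
  obtain ⟨D3, hD3⟩ : ∃ D3 : ℝ, D3 = 320 * A * M ^ 2 * lg := ⟨_, rfl⟩
  obtain ⟨D4, hD4⟩ : ∃ D4 : ℝ, D4 = 2 * A * M ^ 3 := ⟨_, rfl⟩
  have hD3pos : 0 < D3 := by rw [hD3]; positivity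
  have hD4pos : 0 < D4 := by rw [hD4]; positivity
  have hp1 : 1 / M ^ 39 ≤ 1 := by
    rw [div_le_one (by positivity)]
    exact one_le_pow₀ (by linarith)
  obtain ⟨Vs, htri, hs2, hs3, hVs⟩ := exists_clean L hlin G (p := 1 / M ^ 39) (by positivity) hp1
    hD3pos hD4pos
  have hVs' : 3 / 8 * M ^ 41 ≤ (Vs.card : ℝ) := by
    refine le_trans ?_ hVs
    have e1 : 3 / 4 * M ^ 41 ≤ 1 / M ^ 39 * (G.card : ℝ) := by
      have : 3 / 4 * M ^ 41 = 1 / M ^ 39 * (3 / 4 * M ^ 80) := by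
        field_simp
      rw [this]
      exact mul_le_mul_of_nonneg_left hGcard (by positivity)
    have e2 : ((T6 L G).card : ℝ) * (1 / M ^ 39) ^ 6 ≤ M ^ 41 / 8 := by
      have h1 : ((T6 L G).card : ℝ) * (1 / M ^ 39) ^ 6 ≤
          (1120 * A ^ 3 * M ^ 270 * lg * (80 * lg) ^ 2) * (1 / M ^ 39) ^ 6 :=
        mul_le_mul_of_nonneg_right hT6 (by positivity)
      have h2 : (1120 * A ^ 3 * M ^ 270 * lg * (80 * lg) ^ 2) * (1 / M ^ 39) ^ 6 =
          7168000 * A ^ 3 * lg ^ 3 * M ^ 36 := by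
        field_simp
        ring
      rw [h2] at h1
      refine h1.trans ?_
      have h3 : lg ^ 3 ≤ M ^ 3 := by gcongr
      have h4 : 57344000 * A ^ 3 * M ^ 3 ≤ M ^ 5 := by
        have h5 : M ^ 5 = M * M * M ^ 3 := by ring
        rw [h5]
        apply mul_le_mul_of_nonneg_right _ (by positivity)
        nlinarith
      have h6 : 7168000 * A ^ 3 * lg ^ 3 ≤ M ^ 5 / 8 := by
        have : A ^ 3 * lg ^ 3 ≤ A ^ 3 * M ^ 3 := by gcongr
        nlinarith
      calc 7168000 * A ^ 3 * lg ^ 3 * M ^ 36 ≤ M ^ 5 / 8 * M ^ 36 :=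
            mul_le_mul_of_nonneg_right h6 (by positivity)
        _ = M ^ 41 / 8 := by ring
    have e3 : 3 * (((TK L G 3).card : ℝ) * (1 / M ^ 39) ^ 3) / D3 ≤ M ^ 41 / 8 := by
      have h1 : 3 * (((TK L G 3).card : ℝ) * (1 / M ^ 39) ^ 3) / D3 ≤
          3 * ((A * M ^ 160 * (80 * lg) / 6) * (1 / M ^ 39) ^ 3) / D3 := by gcongr
      refine h1.trans (le_of_eq ?_)
      rw [hD3]
      have hA0 : A ≠ 0 := by positivity
      have hl0 : lg ≠ 0 := by positivity
      field_simp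
      ring
    have e4 : 4 * (((TK L G 4).card : ℝ) * (1 / M ^ 39) ^ 4) / D4 ≤ M ^ 41 / 12 := by
      have h1 : 4 * (((TK L G 4).card : ℝ) * (1 / M ^ 39) ^ 4) / D4 ≤
          4 * ((A * M ^ 200 / 24) * (1 / M ^ 39) ^ 4) / D4 := by gcongr
      refine h1.trans (le_of_eq ?_)
      rw [hD4]
      have hA0 : A ≠ 0 := by positivity
      field_simp
      ring
    have : 0 < M ^ 41 := by positivity
    linarith
  obtain ⟨R, hR, hRc⟩ := restrict_greedy hg V L hlin Vs M (by linarith) htri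
    (by
      intro y hy
      refine (hs2 y hy).trans (le_of_eq ?_)
      rw [hD3, ← hlg]
      ring)
    (by
      intro y hy
      refine (hs3 y hy).trans ?_
      rw [hD3, hD4]
      have : A * M ^ 2 * lg ≤ A * M ^ 3 := by
        have e : A * M ^ 3 = A * M ^ 2 * M := by ring
        rw [e]
        exact mul_le_mul_of_nonneg_left hlgM (by positivity)
      nlinarith)
  refine ⟨R, hR, le_trans ?_ hRc⟩
  rw [le_div_iff₀ hMpos]
  calc 3 / 8 * c * M ^ 40 * M = c * (3 / 8 * M ^ 41) := by ring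
    _ ≤ c * (Vs.card : ℝ) := mul_le_mul_of_nonneg_left hVs' hc.le

end Pool.Agent.H60.Greedy
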